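import Mathlib

set_option autoImplicit false

namespace Pool.Agent.H135Z.Wei

open MeasureTheory Finset

/-- distance to the nearest integer -/
noncomputable def cd (x : ℝ) : ℝ := ‖(x : UnitAddCircle)‖

theorem cd_nonneg (x : ℝ) : 0 ≤ cd x := norm_nonneg _

theorem cd_le_abs (x : ℝ) : cd x ≤ |x| := by
  unfold cd
  rw [UnitAddCircle.norm_eq]
  simpa using round_le x 0

theorem cd_add_le (x y : ℝ) : cd (x + y) ≤ cd x + cd y := by
  unfold cd
  rw [AddCircle.coe_add]
  exact norm_add_le _ _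

theorem cd_neg (x : ℝ) : cd (-x) = cd x := by
  unfold cd
  rw [AddCircle.coe_neg, norm_neg]

theorem cd_add_int (x : ℝ) (n : ℤ) : cd (x + n) = cd x := by
  unfold cd
  rw [AddCircle.coe_add]
  have : ((n : ℝ) : UnitAddCircle) = 0 := by
    rw [AddCircle.coe_eq_zero_iff]
    exact ⟨n, by simp⟩
  rw [this, add_zero]

theorem cd_eq (x : ℝ) : cd x = |x - round x| := UnitAddCircle.norm_eq

theorem cd_le_add_abs (x y : ℝ) : cd x ≤ cd y + |x - y| := by
  have h := cd_add_le y (x - y)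
  rw [add_sub_cancel] at h
  exact h.trans (add_le_add le_rfl (cd_le_abs _))

theorem cd_sub_le (x y z : ℝ) : cd (x - y) ≤ cd (x - z) + cd (y - z) := by
  have h := cd_add_le (x - z) (-(y - z))
  rw [cd_neg] at h
  convert h using 2
  ring

/-- tent functions -/
noncomputable def tent (D a : ℕ) (x : ℝ) : ℝ := max 0 (1 - D * cd (x - a / D))

theorem tent_nonneg (D a : ℕ) (x : ℝ) : 0 ≤ tent D a x := le_max_left _ _

theorem tent_le_one (D a : ℕ) (x : ℝ) : tent D a x ≤ 1 := by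
  refine max_le zero_le_one ?_
  have := mul_nonneg (Nat.cast_nonneg (α := ℝ) D) (cd_nonneg (x - a / D))
  linarith

theorem abs_tent_le (D a : ℕ) (x : ℝ) : |tent D a x| ≤ 1 := by
  rw [abs_of_nonneg (tent_nonneg _ _ _)]; exact tent_le_one _ _ _

theorem tent_lip (D a : ℕ) (x y : ℝ) : |tent D a x - tent D a y| ≤ D * |x - y| := by
  unfold tent
  refine (abs_max_sub_max_le_max _ _ _ _).trans (max_le ?_ ?_)
  · simp only [sub_self, abs_zero]; positivity
  · have h1 := cd_le_add_abs (x - a / D) (y - a / D)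
    have h2 := cd_le_add_abs (y - a / D) (x - a / D)
    have e1 : x - a / D - (y - a / D) = x - y := by ring
    have e2 : y - a / D - (x - a / D) = -(x - y) := by ring
    rw [e1] at h1
    rw [e2, abs_neg] at h2
    have hD : (0 : ℝ) ≤ D := Nat.cast_nonneg D
    rw [abs_le]
    constructor <;> nlinarith

theorem tent_ne_zero {D a : ℕ} (hD : 0 < D) {x : ℝ} (h : tent D a x ≠ 0) :
    cd (x - a / D) < 1 / D := by
  have hD' : (0 : ℝ) < D := by exact_mod_cast hD
  rw [lt_div_iff₀ hD']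
  by_contra hc
  apply h
  unfold tent
  apply max_eq_left
  push Not at hc
  linarith

theorem exists_tent {D : ℕ} (hD : 0 < D) (x : ℝ) : ∃ a < D, 1 / 2 ≤ tent D a x := by
  have hD' : (0 : ℝ) < D := by exact_mod_cast hD
  have hDz : (0 : ℤ) < D := by exact_mod_cast hD
  set r : ℤ := round (D * x) with hr
  refine ⟨(r % D).toNat, ?_, ?_⟩
  · have := Int.emod_lt_of_pos r hDz
    have := Int.emod_nonneg r hDz.ne'
    omega
  · refine le_trans ?_ (le_max_right _ _)
    have h0 : (((r % D).toNat : ℕ) : ℝ) = ((r % D : ℤ) : ℝ) := by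
      have := Int.toNat_of_nonneg (Int.emod_nonneg r hDz.ne')
      exact_mod_cast this
    have h1 : ((r % D : ℤ) : ℝ) = r - D * ((r / D : ℤ) : ℝ) := by
      have := Int.emod_add_mul_ediv r D
      have h2 : ((r % D + D * (r / D) : ℤ) : ℝ) = r := by exact_mod_cast this
      push_cast at h2 ⊢
      linarith
    have h2 : x - (((r % D).toNat : ℕ) : ℝ) / D = (x - r / D) + ((r / D : ℤ) : ℝ) := by
      rw [h0, h1]; field_simp; ring
    rw [h2, cd_add_int]
    have h3 : cd (x - r / D) ≤ |x - r / D| := cd_le_abs _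
    have h4 : |D * x - r| ≤ 1 / 2 := abs_sub_round _
    have h5 : D * |x - r / D| = |D * x - r| := by
      rw [← abs_of_pos hD', ← abs_mul, abs_of_pos hD']
      congr 1; field_simp
    nlinarith

theorem tsum_bound {u : ℕ → ℝ} {r l A B : ℝ} (hr : 1 < r) (hl0 : 0 ≤ l) (hl : l < 1)
    (hA : 0 ≤ A) (N1 N2 : ℕ)
    (h : ∀ k, |u k| ≤ (if k < N1 then A * r ^ k else 0) + (if N2 ≤ k then B * l ^ k else 0)) :
    |∑' k, u k| ≤ A * r ^ N1 / (r - 1) + B * l ^ N2 / (1 - l) := by
  have h1 : HasSum (fun k => if k < N1 then A * r ^ k else 0) (∑ k ∈ range N1, A * r ^ k) := by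
    have : HasSum (fun k => if k < N1 then A * r ^ k else 0)
        (∑ k ∈ range N1, if k < N1 then A * r ^ k else 0) :=
      hasSum_sum_of_ne_finset_zero (fun k hk => by simp at hk; simp [hk])
    rwa [Finset.sum_congr rfl (fun k hk => if_pos (mem_range.1 hk))] at this
  have h2 : HasSum (fun k => if N2 ≤ k then B * l ^ k else 0) (B * l ^ N2 / (1 - l)) := by
    rw [← hasSum_nat_add_iff' N2]
    have : ∑ i ∈ range N2, (if N2 ≤ i then B * l ^ i else 0) = 0 :=
      Finset.sum_eq_zero fun i hi => if_neg (by simpa using hi)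
    rw [this, sub_zero]
    simp only [le_add_iff_nonneg_left, Nat.zero_le, if_true]
    have := (hasSum_geometric_of_lt_one hl0 hl).mul_left (B * l ^ N2)
    have e : (fun n => B * l ^ (n + N2)) = fun i => B * l ^ N2 * l ^ i := by funext k; ring
    rw [e, div_eq_mul_inv]
    exact this
  have h3 := tsum_of_norm_bounded (h1.add h2) (f := u) (fun k => h k)
  refine h3.trans (add_le_add ?_ le_rfl)
  rw [← Finset.mul_sum, geom_sum_eq hr.ne', mul_div_assoc]
  gcongr
  linarith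

/-- real form of the Weierstrass series -/
noncomputable def Wr (l : ℝ) (b : ℕ) (G : ℝ → ℝ) (x : ℝ) : ℝ := ∑' k : ℕ, l ^ k * G ((b : ℝ) ^ k * x)

theorem summable_W {l : ℝ} (hl0 : 0 ≤ l) (hl : l < 1) (b : ℕ) {G : ℝ → ℝ} {M : ℝ}
    (hM : ∀ x, |G x| ≤ M) (x : ℝ) : Summable fun k : ℕ => l ^ k * G ((b : ℝ) ^ k * x) := by
  refine Summable.of_norm_bounded ((summable_geometric_of_lt_one hl0 hl).mul_right M) fun k => ?_
  rw [Real.norm_eq_abs, abs_mul, abs_of_nonneg (pow_nonneg hl0 k)]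
  exact mul_le_mul_of_nonneg_left (hM _) (pow_nonneg hl0 k)

theorem continuous_W {l : ℝ} (hl0 : 0 ≤ l) (hl : l < 1) (b : ℕ) {G : ℝ → ℝ} {M : ℝ}
    (hM : ∀ x, |G x| ≤ M) (hG : Continuous G) : Continuous (Wr l b G) := by
  refine continuous_tsum (fun k => by fun_prop)
    ((summable_geometric_of_lt_one hl0 hl).mul_right M) fun k x => ?_
  rw [Real.norm_eq_abs, abs_mul, abs_of_nonneg (pow_nonneg hl0 k)]
  exact mul_le_mul_of_nonneg_left (hM _) (pow_nonneg hl0 k)

/-- Hölder bound at scale `b^{-n}`. -/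
theorem holder_W {l : ℝ} (hl0 : 0 < l) (hl : l < 1) {b : ℕ} (hlb : 1 < l * b) {G : ℝ → ℝ}
    {M L : ℝ} (hM : ∀ x, |G x| ≤ M) (hL0 : 0 ≤ L) (hL : ∀ x y, |G x - G y| ≤ L * |x - y|)
    (n : ℕ) {x y : ℝ} (hxy : |x - y| ≤ 1 / (b : ℝ) ^ n) :
    |Wr l b G x - Wr l b G y| ≤ (L / (l * b - 1) + 2 * M / (1 - l)) * l ^ n := by
  have hb : (0 : ℝ) < b := by
    by_contra hc
    push Not at hc
    nlinarith
  unfold Wr
  rw [← (summable_W hl0.le hl b hM x).tsum_sub (summable_W hl0.le hl b hM y)]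
  refine (tsum_bound (A := L / (b : ℝ) ^ n) (B := 2 * M) hlb hl0.le hl (by positivity) n n
    fun k => ?_).trans (le_of_eq ?_)
  · rw [← mul_sub, abs_mul, abs_of_pos (pow_pos hl0 k)]
    by_cases hk : k < n
    · rw [if_pos hk, if_neg (by omega), add_zero]
      have h1 := hL ((b : ℝ) ^ k * x) ((b : ℝ) ^ k * y)
      rw [← mul_sub, abs_mul, abs_of_pos (pow_pos hb k)] at h1
      have h2 : L * ((b : ℝ) ^ k * |x - y|) ≤ L * ((b : ℝ) ^ k * (1 / (b : ℝ) ^ n)) := by gcongr
      calc l ^ k * |G ((b : ℝ) ^ k * x) - G ((b : ℝ) ^ k * y)|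
          ≤ l ^ k * (L * ((b : ℝ) ^ k * (1 / (b : ℝ) ^ n))) := by gcongr; exact h1.trans h2
        _ = _ := by rw [mul_pow]; ring
    · rw [if_neg hk, if_pos (by omega), zero_add, mul_comm]
      have := abs_sub (G ((b : ℝ) ^ k * x)) (G ((b : ℝ) ^ k * y))
      have := hM ((b : ℝ) ^ k * x)
      have := hM ((b : ℝ) ^ k * y)
      gcongr
      linarith
  · rw [mul_pow]
    field_simp

end Pool.Agent.H135Z.Wei
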