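import Pool.Agent.H135Z.Wei.Basic

set_option autoImplicit false

namespace Pool.Agent.H135Z.Wei

open MeasureTheory Finset

theorem card_near_int (S : Finset ℤ) (c : ℝ) (r : ℕ) (h : ∀ q ∈ S, |(q : ℝ) - c| ≤ r) :
    S.card ≤ 2 * r + 1 := by
  have hs : S ⊆ Finset.Icc (⌈c⌉ - r) (⌈c⌉ + r) := by
    intro q hq
    have h1 := abs_le.1 (h q hq)
    have h2 := Int.le_ceil c
    have h3 := Int.ceil_lt_add_one c
    rw [Finset.mem_Icc]
    constructor
    · have : ((⌈c⌉ - r : ℤ) : ℝ) < q + 1 := by push_cast; linarith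
      have : (⌈c⌉ - r : ℤ) < q + 1 := by exact_mod_cast this
      omega
    · have : (q : ℝ) ≤ ((⌈c⌉ + r : ℤ) : ℝ) := by push_cast; linarith
      exact_mod_cast this
  refine (card_le_card hs).trans ?_
  rw [Int.card_Icc]
  omega

open Classical in
/-- blocks `q < D` for which `β q / D + γ` is close to an integer -/
noncomputable def near (D C : ℕ) (β γ : ℝ) : Finset ℕ :=
  (range D).filter fun q => cd (β * (q / D) + γ) ≤ C / D

theorem card_near {D C B : ℕ} (hD : 0 < D) {β : ℝ} (γ : ℝ) (h1 : 1 / 2 ≤ |β|) (h2 : |β| ≤ B) :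
    (near D C β γ).card ≤ (4 * C + 1) * (2 * (B + 1) + 1) := by
  classical
  have hD' : (0 : ℝ) < D := by exact_mod_cast hD
  set f : ℕ → ℤ := fun q => round (β * (q / D) + γ) with hf
  refine (card_le_mul_card_image (f := f) _ (4 * C + 1) ?_).trans ?_
  · intro j _
    have hb : β ≠ 0 := by rintro rfl; norm_num at h1
    have := card_near_int (((near D C β γ).filter fun q => f q = j).image (Nat.cast : ℕ → ℤ))
      (D * (j - γ) / β) (2 * C) ?_
    · rw [card_image_of_injective _ Nat.cast_injective] at this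
      omega
    · intro q' hq'
      obtain ⟨q, hq, rfl⟩ := mem_image.1 hq'
      obtain ⟨hq1, hq2⟩ := mem_filter.1 hq
      have hq3 := (mem_filter.1 hq1).2
      rw [cd_eq] at hq3
      have hq4 : round (β * (q / D) + γ) = j := hq2
      rw [hq4] at hq3
      have e : ((q : ℤ) : ℝ) - D * (j - γ) / β = (D / β) * (β * (q / D) + γ - j) := by
        push_cast; field_simp; ring
      rw [e, abs_mul, abs_div, abs_of_pos hD']
      have h5 : (D : ℝ) / |β| ≤ 2 * D := by
        rw [div_le_iff₀ (by linarith)]; nlinarith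
      calc (D : ℝ) / |β| * |β * (q / D) + γ - j| ≤ (2 * D) * (C / D) := by gcongr
        _ = _ := by push_cast; field_simp
  · refine Nat.mul_le_mul_left _ (card_near_int _ γ (B + 1) ?_)
    intro j hj
    obtain ⟨q, hq, rfl⟩ := mem_image.1 hj
    have hq1 : q < D := mem_range.1 (mem_filter.1 hq).1
    have hq2 : (q : ℝ) / D ≤ 1 := by
      rw [div_le_one hD']; exact_mod_cast hq1.le
    have hq0 : (0 : ℝ) ≤ q / D := by positivity
    have h3 := abs_sub_round (β * (q / D) + γ)
    have h4 : |β * (q / D)| ≤ B := by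
      rw [abs_mul, abs_of_nonneg hq0]
      nlinarith [abs_nonneg β]
    have h5 := abs_le.1 h3
    have h6 := abs_le.1 h4
    simp only [hf]
    push_cast
    rw [abs_le]
    constructor <;> linarith

theorem ptr {ι : Type} [Fintype ι] [DecidableEq ι] (C : ι → Finset ℕ) (R : ι → ι → ℕ → Finset ℕ)
    {Q D E : ℕ} (hC : ∀ i, (C i).card ≤ Q) (hR : ∀ i i' v, (R i i' v).card ≤ Q)
    (hE : D ≤ E * E) (hE1 : 1 ≤ E) (hQ : 1 ≤ Q) (s : ℕ) :
    ∀ S : Finset ι, S.card = s → ∀ q0 : ι → ℕ, ∃ T : Finset (ι → ℕ),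
      T.card ≤ (Q * (1 + 2 * Fintype.card ι) * E) ^ s ∧
      ∀ q : ι → ℕ, (∀ i, i ∉ S → q i = q0 i) → (∀ i, q i < D) →
        (∀ i ∈ S, q i ∈ C i ∨ ∃ i', i' ≠ i ∧ q i ∈ R i i' (q i')) → q ∈ T := by
  induction s using Nat.strong_induction_on with
  | _ s ih =>
  intro S hS q0
  set P := Fintype.card ι with hP
  set Z := Q * (1 + 2 * P) * E with hZ
  rcases S.eq_empty_or_nonempty with rfl | ⟨i0, hi0⟩
  · refine ⟨{q0}, ?_, fun q h _ _ => ?_⟩
    · rw [← hS]; simp
    · rw [mem_singleton]; funext i; exact h i (by simp)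
  obtain ⟨s, rfl⟩ : ∃ t, s = t + 1 := ⟨s - 1, by have := card_pos.2 ⟨i0, hi0⟩; omega⟩
  have hS1 : (S.erase i0).card = s := by rw [card_erase_of_mem hi0]; omega
  choose T1 hT1 hT1' using ih s (by omega) (S.erase i0) hS1
  have h2 : ∀ i' : ι, ∀ q0 : ι → ℕ, ∃ T : Finset (ι → ℕ), i' ∈ S.erase i0 →
      (D * T.card ≤ E * Z ^ s ∧
      ∀ q : ι → ℕ, (∀ i, i ∉ (S.erase i0).erase i' → q i = q0 i) → (∀ i, q i < D) →
        (∀ i ∈ (S.erase i0).erase i', q i ∈ C i ∨ ∃ i', i' ≠ i ∧ q i ∈ R i i' (q i')) →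
          q ∈ T) := by
    intro i' q0
    by_cases hi' : i' ∈ S.erase i0
    · obtain ⟨t, rfl⟩ : ∃ t, s = t + 1 := ⟨s - 1, by have := card_pos.2 ⟨i', hi'⟩; omega⟩
      obtain ⟨T, hT, hT'⟩ := ih t (by omega) ((S.erase i0).erase i')
        (by rw [card_erase_of_mem hi']; omega) q0
      refine ⟨T, fun _ => ⟨?_, hT'⟩⟩
      have hEZ : E ≤ Z := by
        rw [hZ]
        exact Nat.le_mul_of_pos_left _ (Nat.mul_pos hQ (by omega))
      calc D * T.card ≤ (E * E) * Z ^ t := Nat.mul_le_mul hE hT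
        _ ≤ (E * Z) * Z ^ t := by gcongr
        _ = _ := by ring
    · exact ⟨∅, fun h => absurd h hi'⟩
  choose T2 hT2 using h2
  set C' := C i0 ∪ univ.biUnion fun i' => R i0 i' (q0 i') with hC'
  have hC'c : C'.card ≤ Q + P * Q := by
    refine (card_union_le _ _).trans (add_le_add (hC _) ?_)
    exact (card_biUnion_le_card_mul _ _ _ fun i' _ => hR _ _ _).trans (by rw [card_univ])
  refine ⟨(C'.biUnion fun v => T1 (Function.update q0 i0 v)) ∪
    (S.erase i0).biUnion fun i' => (range D).biUnion fun v' => (R i0 i' v').biUnion fun v =>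
      T2 i' (Function.update (Function.update q0 i' v') i0 v), ?_, ?_⟩
  · refine (card_union_le _ _).trans ?_
    have a1 : (C'.biUnion fun v => T1 (Function.update q0 i0 v)).card ≤ (Q + P * Q) * Z ^ s :=
      (card_biUnion_le_card_mul _ _ _ fun v _ => hT1 _).trans (Nat.mul_le_mul_right _ hC'c)
    have a2 : ((S.erase i0).biUnion fun i' => (range D).biUnion fun v' =>
        (R i0 i' v').biUnion fun v =>
        T2 i' (Function.update (Function.update q0 i' v') i0 v)).card ≤ P * (Q * (E * Z ^ s)) := by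
      refine (card_biUnion_le_card_mul _ _ (Q * (E * Z ^ s)) fun i' hi' => ?_).trans
        (Nat.mul_le_mul_right _ (card_le_univ _))
      rcases Nat.eq_zero_or_pos D with rfl | hD
      · simp
      have hm : ∀ q1, (T2 i' q1).card ≤ E * Z ^ s / D := fun q1 =>
        (Nat.le_div_iff_mul_le hD).2 (by rw [mul_comm]; exact (hT2 i' q1 hi').1)
      refine (card_biUnion_le_card_mul _ _ (Q * (E * Z ^ s / D)) fun v' _ => ?_).trans ?_
      · exact (card_biUnion_le_card_mul _ _ _ fun v _ => hm _).trans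
          (Nat.mul_le_mul_right _ (hR _ _ _))
      · rw [card_range, mul_left_comm]
        exact Nat.mul_le_mul_left _ (Nat.mul_div_le _ _)
    have a3 : (Q + P * Q) * Z ^ s ≤ (Q + P * Q) * (E * Z ^ s) :=
      Nat.mul_le_mul_left _ (Nat.le_mul_of_pos_left _ hE1)
    refine (add_le_add (a1.trans a3) a2).trans (le_of_eq ?_)
    rw [pow_succ, hZ]; ring
  · intro q hq1 hq2 hq3
    by_cases hc : q i0 ∈ C'
    · refine mem_union_left _ (mem_biUnion.2 ⟨q i0, hc, hT1' _ q ?_ hq2 ?_⟩)
      · intro i hi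
        by_cases h : i = i0
        · subst h; simp
        · rw [Function.update_of_ne h]
          exact hq1 i (fun h' => hi (mem_erase.2 ⟨h, h'⟩))
      · exact fun i hi => hq3 i (mem_of_mem_erase hi)
    · rcases hq3 i0 hi0 with h | ⟨i', hi', h⟩
      · exact absurd (mem_union_left _ h) hc
      have hi'S : i' ∈ S := by
        by_contra hn
        rw [hq1 i' hn] at h
        exact hc (mem_union_right _ (mem_biUnion.2 ⟨i', mem_univ _, h⟩))
      have hi'e : i' ∈ S.erase i0 := mem_erase.2 ⟨hi', hi'S⟩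
      refine mem_union_right _ (mem_biUnion.2 ⟨i', hi'e, mem_biUnion.2 ⟨q i', mem_range.2 (hq2 _),
        mem_biUnion.2 ⟨q i0, h, (hT2 i' _ hi'e).2 q ?_ hq2 ?_⟩⟩⟩)
      · intro i hi
        by_cases h0 : i = i0
        · subst h0; simp
        rw [Function.update_of_ne h0]
        by_cases h1 : i = i'
        · subst h1; simp
        rw [Function.update_of_ne h1]
        exact hq1 i (fun h' => hi (mem_erase.2 ⟨h1, mem_erase.2 ⟨h0, h'⟩⟩))
      · exact fun i hi => hq3 i (mem_of_mem_erase (mem_of_mem_erase hi))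

end Pool.Agent.H135Z.Wei
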