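import Mathlib

set_option autoImplicit false

namespace Pool.Agent.H135Z.Wei

open MeasureTheory

/-- Lipschitz functions on the circle `ℝ/ℤ`, as a linear subspace of all functions. -/
def lipSub : Submodule ℝ (UnitAddCircle → ℝ) where
  carrier := {g | ∃ K, LipschitzWith K g}
  add_mem' := fun ⟨K, hK⟩ ⟨L, hL⟩ => ⟨K + L, hK.add hL⟩
  zero_mem' := ⟨0, LipschitzWith.const' 0⟩
  smul_mem' := fun c _ ⟨K, hK⟩ => ⟨‖c‖₊ * K, (lipschitzWith_smul c).comp hK⟩

/-- The space `Lip(S¹)` (a new type, so that it carries only the Lipschitz norm topology). -/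
def Lip : Type := lipSub

noncomputable instance : AddCommGroup Lip := inferInstanceAs (AddCommGroup lipSub)
noncomputable instance : Module ℝ Lip := inferInstanceAs (Module ℝ lipSub)

/-- The function underlying an element of `Lip`. -/
def Lip.fn (g : Lip) : UnitAddCircle → ℝ := g.1

/-- `sup |g(x)|`. -/
noncomputable def supN (g : Lip) : ℝ := ⨆ x : UnitAddCircle, |g.fn x|

/-- `sup_{x ≠ y} |g(x) - g(y)| / |x - y|`. -/
noncomputable def lipN (g : Lip) : ℝ :=
  ⨆ p : {p : UnitAddCircle × UnitAddCircle // p.1 ≠ p.2}, |g.fn p.1.1 - g.fn p.1.2| / dist p.1.1 p.1.2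

theorem bdd_sup (g : Lip) : BddAbove (Set.range fun x : UnitAddCircle => |g.fn x|) := by
  obtain ⟨K, hK⟩ := g.2
  exact (isCompact_range (continuous_abs.comp hK.continuous)).bddAbove

theorem bdd_lip (g : Lip) : BddAbove (Set.range
    fun p : {p : UnitAddCircle × UnitAddCircle // p.1 ≠ p.2} =>
      |g.fn p.1.1 - g.fn p.1.2| / dist p.1.1 p.1.2) := by
  obtain ⟨K, hK⟩ := g.2
  refine ⟨K, ?_⟩
  rintro _ ⟨p, rfl⟩
  exact (div_le_iff₀ (dist_pos.2 p.2)).2 (hK.dist_le_mul _ _)

theorem supN_nonneg (g : Lip) : 0 ≤ supN g := Real.iSup_nonneg fun _ => abs_nonneg _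

theorem lipN_nonneg (g : Lip) : 0 ≤ lipN g :=
  Real.iSup_nonneg fun _ => div_nonneg (abs_nonneg _) dist_nonneg

/-- The norm `‖g‖ = sup |g(x)| + sup_{x ≠ y} |g(x) - g(y)| / |x - y|`. -/
noncomputable def lipNorm : AddGroupNorm Lip where
  toFun g := supN g + lipN g
  map_zero' := by
    have : (0 : Lip).fn = fun _ => 0 := rfl
    simp [supN, lipN, this]
  add_le' g h := by
    have e : ∀ x, (g + h).fn x = g.fn x + h.fn x := fun _ => rfl
    have h1 : supN (g + h) ≤ supN g + supN h :=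
      Real.iSup_le (fun x => (e x).symm ▸ (abs_add_le _ _).trans
        (add_le_add (le_ciSup (bdd_sup g) x) (le_ciSup (bdd_sup h) x)))
        (add_nonneg (supN_nonneg g) (supN_nonneg h))
    have h2 : lipN (g + h) ≤ lipN g + lipN h := by
      refine Real.iSup_le (fun p => ?_) (add_nonneg (lipN_nonneg g) (lipN_nonneg h))
      refine le_trans ?_ (add_le_add (le_ciSup (bdd_lip g) p) (le_ciSup (bdd_lip h) p))
      rw [← add_div, e, e]
      refine div_le_div_of_nonneg_right ?_ dist_nonneg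
      refine le_trans (le_of_eq ?_) (abs_add_le _ _)
      congr 1; ring
    linarith
  neg' g := by
    have e : ∀ x, (-g).fn x = -g.fn x := fun _ => rfl
    simp only [supN, lipN, e, abs_neg, neg_sub_neg, abs_sub_comm]
  eq_zero_of_map_eq_zero' g hg := by
    have h0 : supN g ≤ 0 := by linarith [lipN_nonneg g]
    apply Subtype.ext
    funext x
    exact abs_nonpos_iff.1 ((le_ciSup (bdd_sup g) x).trans h0)

noncomputable instance : NormedAddCommGroup Lip := lipNorm.toNormedAddCommGroup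
noncomputable instance : MeasurableSpace Lip := borel Lip
instance : BorelSpace Lip := ⟨rfl⟩

/-- Shy sets in `Lip(S¹)` (Christensen, Hunt, Sauer, Yorke). -/
def Shy (A : Set Lip) : Prop :=
  ∃ (μ : Measure Lip) (B : Set Lip), MeasurableSet B ∧ A ⊆ B ∧
    (∃ K : Set Lip, IsCompact K ∧ 0 < μ K ∧ μ K < ⊤) ∧
    ∀ x : Lip, μ ((fun g => x + g) '' B) = 0

/-- A set is prevalent if its complement is shy. -/
def Prevalent (A : Set Lip) : Prop := Shy Aᶜ

/-- The Weierstrass function `W_g^{α,b}(x) = ∑_k b^{-αk} g(b^k x)` on the circle. -/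
noncomputable def weier (α : ℝ) (b : ℕ) (g : Lip) (x : UnitAddCircle) : ℝ :=
  ∑' k : ℕ, (b : ℝ) ^ (-(α * k)) * g.fn ((b ^ k : ℕ) • x)

end Pool.Agent.H135Z.Wei
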