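import Pool.Agent.H135Z.Wei.Step

set_option autoImplicit false

namespace Pool.Agent.H135Z.Wei

open MeasureTheory ProbabilityTheory Filter Topology Metric
open scoped ENNReal NNReal

theorem frostman (ν : Measure ℝ) {E : Set ℝ} (hE : ν E ≠ 0) {b : ℕ} (hb : 2 ≤ b) {s : ℝ≥0}
    (hs : 0 < s) {c : ℝ≥0∞} (hc : c ≠ ⊤) (n0 : ℕ)
    (h : ∀ n, n0 ≤ n → ∀ U : Set ℝ, ediam U ≤ ENNReal.ofReal (1 / (b : ℝ) ^ n) →
      ν U ≤ c * ENNReal.ofReal ((1 / (b : ℝ) ^ n) ^ (s : ℝ))) : (s : ℝ≥0∞) ≤ dimH E := by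
  have hb1 : (1 : ℝ) < b := by exact_mod_cast hb
  have hb0 : (0 : ℝ) < b := by linarith
  have hs' : (0 : ℝ) < s := hs
  set c' : ℝ≥0∞ := c * ENNReal.ofReal ((b : ℝ) ^ (s : ℝ)) + 1 with hc'
  have hc0 : c' ≠ 0 := by simp [hc']
  have hc1 : c' ≠ ⊤ := ENNReal.add_ne_top.2 ⟨ENNReal.mul_ne_top hc ENNReal.ofReal_ne_top, by simp⟩
  have hten : Tendsto (fun n : ℕ => 1 / (b : ℝ) ^ n) atTop (𝓝 0) := by
    simp_rw [one_div]
    exact tendsto_inv_atTop_zero.comp (tendsto_pow_atTop_atTop_of_one_lt hb1)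
  have hle : c'⁻¹ • ν ≤ Measure.hausdorffMeasure (s : ℝ) := by
    refine Measure.le_hausdorffMeasure _ _ (ENNReal.ofReal (1 / (b : ℝ) ^ n0))
      (ENNReal.ofReal_pos.2 (by positivity)) fun U hU => ?_
    rw [Measure.smul_apply, smul_eq_mul, ENNReal.inv_mul_le_iff hc0 hc1]
    by_cases h0 : ediam U = 0
    · have h1 : Tendsto (fun n : ℕ => c * ENNReal.ofReal ((1 / (b : ℝ) ^ n) ^ (s : ℝ))) atTop
          (𝓝 (c * ENNReal.ofReal ((0 : ℝ) ^ (s : ℝ)))) :=
        ENNReal.Tendsto.const_mul (ENNReal.tendsto_ofReal (hten.rpow_const (Or.inr hs'.le)))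
          (Or.inr hc)
      rw [Real.zero_rpow hs'.ne', ENNReal.ofReal_zero, mul_zero] at h1
      have : ν U ≤ 0 := ge_of_tendsto h1 (eventually_atTop.2 ⟨n0, fun n hn =>
        h n hn U (h0 ▸ bot_le)⟩)
      exact this.trans bot_le
    · have htop : ediam U ≠ ⊤ := ne_top_of_le_ne_top ENNReal.ofReal_ne_top hU
      set x := (ediam U).toReal with hx
      have hx0 : 0 < x := ENNReal.toReal_pos h0 htop
      have hxe : ediam U = ENNReal.ofReal x := (ENNReal.ofReal_toReal htop).symm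
      have hex : ∃ j : ℕ, 1 / (b : ℝ) ^ (n0 + j + 1) < x := by
        obtain ⟨N, hN⟩ := eventually_atTop.1 (hten.eventually (gt_mem_nhds hx0))
        exact ⟨N, hN _ (by omega)⟩
      classical
      have h1 := Nat.find_spec hex
      have h2 : x ≤ 1 / (b : ℝ) ^ (n0 + Nat.find hex) := by
        rcases Nat.eq_zero_or_pos (Nat.find hex) with h3 | h3
        · rw [h3, add_zero]
          rw [hxe] at hU
          exact (ENNReal.ofReal_le_ofReal_iff (by positivity)).1 hU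
        · have := Nat.find_min hex (m := Nat.find hex - 1) (by omega)
          rw [show n0 + (Nat.find hex - 1) + 1 = n0 + Nat.find hex by omega] at this
          exact not_lt.1 this
      refine (h (n0 + Nat.find hex) (by omega) U (hxe ▸ ENNReal.ofReal_le_ofReal h2)).trans ?_
      have h4 : 1 / (b : ℝ) ^ (n0 + Nat.find hex) ≤ b * x := by
        rw [pow_succ, ← div_div, div_lt_iff₀ hb0] at h1
        linarith
      calc c * ENNReal.ofReal ((1 / (b : ℝ) ^ (n0 + Nat.find hex)) ^ (s : ℝ))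
          ≤ c * ENNReal.ofReal ((b * x) ^ (s : ℝ)) := by gcongr
        _ = c * ENNReal.ofReal ((b : ℝ) ^ (s : ℝ)) * ediam U ^ (s : ℝ) := by
          rw [Real.mul_rpow hb0.le hx0.le, ENNReal.ofReal_mul (by positivity), hxe,
            ENNReal.ofReal_rpow_of_nonneg hx0.le hs'.le, mul_assoc]
        _ ≤ c' * ediam U ^ (s : ℝ) := by gcongr; exact le_self_add
  refine le_dimH_of_hausdorffMeasure_ne_zero fun h0 => hE ?_
  have := Measure.le_iff'.1 hle E
  rw [h0, Measure.smul_apply, smul_eq_mul, nonpos_iff_eq_zero, mul_eq_zero] at this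
  exact this.resolve_left (ENNReal.inv_ne_zero.2 hc1)

theorem mem_Ib_floor {b : ℕ} (hb : 0 < b) (n : ℕ) {x : ℝ} (hx : x ∈ Set.Ico (0 : ℝ) 1) :
    x ∈ Ib b n ⌊(b : ℝ) ^ n * x⌋₊ ∧ ⌊(b : ℝ) ^ n * x⌋₊ < b ^ n := by
  have h0 : (0 : ℝ) < (b : ℝ) ^ n := by positivity
  have h1 : 0 ≤ (b : ℝ) ^ n * x := mul_nonneg h0.le hx.1
  refine ⟨(mem_Ib hb).2 ⟨Nat.floor_le h1, Nat.lt_floor_add_one _⟩, ?_⟩
  rw [Nat.floor_lt h1]
  push_cast
  nlinarith [hx.2]

theorem Ib_subset {b : ℕ} (hb : 0 < b) {n t : ℕ} (ht : t < b ^ n) : Ib b n t ⊆ Set.Ico 0 1 := by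
  intro x hx
  rw [mem_Ib hb] at hx
  have h0 : (0 : ℝ) < (b : ℝ) ^ n := by positivity
  have h1 : (t : ℝ) + 1 ≤ (b : ℝ) ^ n := by exact_mod_cast ht
  have h2 : (0 : ℝ) ≤ t := Nat.cast_nonneg t
  constructor
  · by_contra hc
    push Not at hc
    nlinarith [hx.1]
  · by_contra hc
    push Not at hc
    nlinarith [hx.2]

theorem three_cover {b : ℕ} (hb : 0 < b) (n : ℕ) (ν : Measure ℝ) (hν : ν (Set.Ico 0 1)ᶜ = 0)
    {c : ℝ≥0∞} (h : ∀ t < b ^ n, ν (Ib b n t) ≤ c) {U : Set ℝ}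
    (hU : ediam U ≤ ENNReal.ofReal (1 / (b : ℝ) ^ n)) : ν U ≤ 3 * c := by
  have h0 : (0 : ℝ) < (b : ℝ) ^ n := by positivity
  rcases (U ∩ Set.Ico 0 1).eq_empty_or_nonempty with he | ⟨x0, hx0, hx0'⟩
  · refine le_trans (le_of_eq (measure_mono_null (fun x hx => ?_) hν)) bot_le
    exact fun hx' => (Set.eq_empty_iff_forall_notMem.1 he x) ⟨hx, hx'⟩
  set t0 := ⌊(b : ℝ) ^ n * x0⌋₊ with ht0
  have hsub : U ⊆ (Set.Ico 0 1)ᶜ ∪ ⋃ t ∈ (Finset.Icc (t0 - 1) (t0 + 1)).filter (· < b ^ n),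
      Ib b n t := by
    intro x hx
    by_cases hx' : x ∈ Set.Ico (0 : ℝ) 1
    · right
      obtain ⟨h1, h2⟩ := mem_Ib_floor hb n hx'
      refine Set.mem_biUnion (Finset.mem_coe.2 (Finset.mem_filter.2 ⟨?_, h2⟩)) h1
      have h3 := (mem_Ib hb).1 h1
      have h4 := (mem_Ib hb).1 (mem_Ib_floor hb n hx0').1
      have h5 : edist x x0 ≤ ENNReal.ofReal (1 / (b : ℝ) ^ n) :=
        (edist_le_ediam_of_mem hx hx0).trans hU
      rw [edist_dist, ENNReal.ofReal_le_ofReal_iff (by positivity), Real.dist_eq,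
        le_div_iff₀ h0, ← abs_of_pos h0, ← abs_mul, abs_le] at h5
      rw [← ht0] at h4
      set t := ⌊(b : ℝ) ^ n * x⌋₊
      have a1 : (t : ℝ) < t0 + 2 := by nlinarith [h3.1, h4.2, h5.2]
      have a2 : (t0 : ℝ) < t + 2 := by nlinarith [h4.1, h3.2, h5.1]
      have a1' : t < t0 + 2 := by exact_mod_cast a1
      have a2' : t0 < t + 2 := by exact_mod_cast a2
      rw [Finset.mem_Icc]; omega
    · exact Or.inl hx'
  refine (measure_mono hsub).trans ((measure_union_le _ _).trans ?_)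
  rw [hν, zero_add]
  refine (measure_biUnion_finset_le _ _).trans ?_
  refine (Finset.sum_le_card_nsmul _ _ c fun t ht => h t (Finset.mem_filter.1 ht).2).trans ?_
  rw [nsmul_eq_mul]
  gcongr
  have : ((Finset.Icc (t0 - 1) (t0 + 1)).filter (· < b ^ n)).card ≤ 3 :=
    (Finset.card_filter_le _ _).trans (by rw [Nat.card_Icc]; omega)
  exact_mod_cast this

/-- the uniform weak `L²` property of the occupation measures -/
def Unif (l : ℝ) (b : ℕ) (W : ℝ → ℝ) (K : ℝ≥0∞) : Prop :=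
  ∀ n t, t < b ^ n → ∀ A : Set ℝ, MeasurableSet A → ∀ δ : ℝ≥0∞, δ ≠ 0 → δ ≠ ⊤ →
    volume (Ib b n t ∩ W ⁻¹' A) ≤
      δ * (K * ENNReal.ofReal (1 / ((b : ℝ) ^ 2 * l) ^ n)) + δ⁻¹ * volume A

theorem Ib_zero (b : ℕ) : Ib b 0 0 = Set.Ico 0 1 := by simp [Ib]

theorem occ_ac {l : ℝ} {b : ℕ} {W : ℝ → ℝ} (hW : Measurable W) {K : ℝ≥0∞} (hK : K ≠ ⊤)
    (h : Unif l b W K) : (volume.restrict (Set.Ico (0 : ℝ) 1)).map W ≪ volume := by
  refine Measure.AbsolutelyContinuous.mk fun A hA h0 => ?_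
  rw [Measure.map_apply hW hA, Measure.restrict_apply (hW hA), Set.inter_comm, ← Ib_zero b]
  refine le_antisymm (ENNReal.le_of_forall_pos_le_add fun ε hε _ => ?_) bot_le
  have hK1 : K + 1 ≠ ⊤ := by simp [hK]
  have hK0 : K + 1 ≠ 0 := by simp
  have := h 0 0 (by simp) A hA (ε / (K + 1))
    (ENNReal.div_ne_zero.2 ⟨by simpa using hε.ne', hK1⟩) (ENNReal.div_ne_top (by simp) hK0)
  refine this.trans ?_
  simp only [h0, mul_zero, add_zero, pow_zero, div_one, ENNReal.ofReal_one, mul_one, zero_add]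
  calc (ε : ℝ≥0∞) / (K + 1) * K ≤ ε / (K + 1) * (K + 1) := by gcongr; exact le_self_add
    _ = ε := ENNReal.div_mul_cancel hK0 hK1

theorem lower_ae {l : ℝ} (hl0 : 0 < l) {b : ℕ} (hb : 2 ≤ b) {W : ℝ → ℝ} (hW : Measurable W)
    {K : ℝ≥0∞} (hK : K ≠ ⊤) (h : Unif l b W K) {s : ℝ≥0} (hs : 0 < s)
    (hsl : (b : ℝ) ^ (s : ℝ) < l * b) :
    ∀ᵐ y ∂((volume.restrict (Set.Ico (0 : ℝ) 1)).map W),
      (s : ℝ≥0∞) ≤ dimH (W ⁻¹' {y} ∩ Set.Ico 0 1) := by
  have hb0 : (0 : ℝ) < b := by have : 0 < b := by omega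
                               exact_mod_cast this
  set μ := (volume.restrict (Set.Ico (0 : ℝ) 1)).map W with hμ
  have hac : μ ≪ volume := occ_ac hW hK h
  have hWW : Measurable fun x => (W x, x) := hW.prodMk measurable_id
  set ρ : Measure (ℝ × ℝ) := (volume.restrict (Set.Ico (0 : ℝ) 1)).map fun x => (W x, x) with hρ
  have hfst : ρ.fst = μ := by
    exact Measure.fst_map_prodMk (Y := fun x => x) measurable_id
  set κ := ρ.condKernel with hκ
  set f := μ.rnDeriv volume with hf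
  have hfm : Measurable f := Measure.measurable_rnDeriv _ _
  set σ : ℕ → ℝ≥0∞ := fun n => ENNReal.ofReal ((1 / (b : ℝ) ^ n) ^ (s : ℝ)) with hσ
  have hσ0 : ∀ n, σ n ≠ 0 := fun n => (ENNReal.ofReal_pos.2 (by positivity)).ne'
  have hσ1 : ∀ n, σ n ≠ ⊤ := fun n => ENNReal.ofReal_ne_top
  set A : ℕ → ℕ → Set ℝ := fun n t => {y | σ n < κ y (Ib b n t) * f y} with hA
  have hκm : ∀ n t, Measurable fun y => κ y (Ib b n t) := fun n t =>
    κ.measurable_coe (meas_Ib b n t)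
  have hAm : ∀ n t, MeasurableSet (A n t) := fun n t =>
    measurableSet_lt measurable_const ((hκm n t).mul hfm)
  have hmass : ∀ n t, t < b ^ n → ∫⁻ y in A n t, κ y (Ib b n t) ∂μ ≤
      4 * K * ENNReal.ofReal (((b : ℝ) ^ (s : ℝ) / ((b : ℝ) ^ 2 * l)) ^ n) := by
    intro n t ht
    have e1 : ∫⁻ y in A n t, κ y (Ib b n t) ∂μ = volume (Ib b n t ∩ W ⁻¹' A n t) := by
      rw [← hfst, Measure.setLIntegral_condKernel_eq_measure_prod (hAm n t) (meas_Ib b n t), hρ,
        Measure.map_apply hWW ((hAm n t).prod (meas_Ib b n t)),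
        Measure.restrict_apply (hWW ((hAm n t).prod (meas_Ib b n t)))]
      congr 1
      ext x
      simp only [Set.mem_inter_iff, Set.mem_preimage, Set.mem_prod]
      exact ⟨fun h => ⟨h.1.2, h.1.1⟩, fun h => ⟨⟨h.2, h.1⟩, Ib_subset (by omega) ht h.1⟩⟩
    have e2 : σ n * volume (A n t) ≤ ∫⁻ y in A n t, κ y (Ib b n t) ∂μ := by
      rw [← Measure.withDensity_rnDeriv_eq _ _ hac,
        setLIntegral_withDensity_eq_setLIntegral_mul _ hfm (hκm n t) (hAm n t), ← setLIntegral_const]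
      refine setLIntegral_mono' (hAm n t) fun y hy => ?_
      rw [Pi.mul_apply, mul_comm]
      exact le_of_lt hy
    set m := ∫⁻ y in A n t, κ y (Ib b n t) ∂μ with hm
    have hfin : m ≠ ⊤ := by rw [e1]; exact ne_top_of_le_ne_top (by simp [vol_Ib])
                                        (measure_mono Set.inter_subset_left)
    have e3 := h n t ht (A n t) (hAm n t) (2 / σ n) (ENNReal.div_ne_zero.2 ⟨by simp, hσ1 n⟩)
      (ENNReal.div_ne_top (by simp) (hσ0 n))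
    rw [← e1, ENNReal.inv_div (Or.inr (by simp)) (Or.inr (by simp))] at e3
    have e4 : σ n / 2 * volume (A n t) ≤ m / 2 := by
      rw [div_eq_mul_inv, mul_right_comm, div_eq_mul_inv]
      gcongr
    have e5 : m / 2 ≤ 2 / σ n * (K * ENNReal.ofReal (1 / ((b : ℝ) ^ 2 * l) ^ n)) := by
      have := e3.trans (add_le_add le_rfl e4)
      nth_rewrite 1 [← ENNReal.add_halves m] at this
      exact ENNReal.le_of_add_le_add_right (ENNReal.div_ne_top hfin (by simp)) this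
    rw [ENNReal.div_le_iff (by simp) (by simp)] at e5
    refine e5.trans (le_of_eq ?_)
    have e6 : ENNReal.ofReal (((b : ℝ) ^ (s : ℝ) / ((b : ℝ) ^ 2 * l)) ^ n) =
        (σ n)⁻¹ * ENNReal.ofReal (1 / ((b : ℝ) ^ 2 * l) ^ n) := by
      simp only [hσ]
      rw [← ENNReal.ofReal_inv_of_pos (by positivity), ← ENNReal.ofReal_mul (by positivity)]
      congr 1
      rw [one_div, Real.inv_rpow (by positivity), inv_inv, div_pow, ← Real.rpow_natCast,
        ← Real.rpow_mul hb0.le, mul_comm (s : ℝ), Real.rpow_mul hb0.le, Real.rpow_natCast]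
      ring
    rw [e6, div_eq_mul_inv]
    ring
  set F : ℕ → ℝ → ℝ≥0∞ := fun n y =>
    ∑ t ∈ Finset.range (b ^ n), (A n t).indicator (fun y => κ y (Ib b n t)) y with hF
  have hFm : ∀ n, Measurable (F n) := fun n =>
    Finset.measurable_sum _ fun t _ => (hκm n t).indicator (hAm n t)
  have hsum : ∫⁻ y, ∑' n, F n y ∂μ ≠ ⊤ := by
    rw [lintegral_tsum fun n => (hFm n).aemeasurable]
    have hr : (b : ℝ) ^ (s : ℝ) / (l * b) < 1 := by rwa [div_lt_one (by positivity)]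
    have : ∀ n, ∫⁻ y, F n y ∂μ ≤ 4 * K * ENNReal.ofReal ((b : ℝ) ^ (s : ℝ) / (l * b)) ^ n := by
      intro n
      simp only [hF]
      rw [lintegral_finsetSum _ fun t _ => (hκm n t).indicator (hAm n t)]
      refine (Finset.sum_le_card_nsmul _ _
        (4 * K * ENNReal.ofReal (((b : ℝ) ^ (s : ℝ) / ((b : ℝ) ^ 2 * l)) ^ n))
        fun t ht => ?_).trans (le_of_eq ?_)
      · rw [lintegral_indicator (hAm n t)]
        exact hmass n t (Finset.mem_range.1 ht)
      · rw [Finset.card_range, nsmul_eq_mul, mul_left_comm, ← ENNReal.ofReal_natCast,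
          ← ENNReal.ofReal_mul (by positivity), ← ENNReal.ofReal_pow (by positivity)]
        congr 2
        push_cast
        rw [← mul_pow]
        congr 1
        field_simp
    refine ne_top_of_le_ne_top ?_ (ENNReal.tsum_le_tsum this)
    rw [ENNReal.tsum_mul_left, ENNReal.tsum_geometric]
    refine ENNReal.mul_ne_top (ENNReal.mul_ne_top (by simp) hK) (ENNReal.inv_ne_top.2 ?_)
    exact (tsub_pos_iff_lt.2 (ENNReal.ofReal_lt_one.2 hr)).ne'
  have hae1 := ae_lt_top (Measurable.tsum hFm) hsum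
  have hae2 : ∀ᵐ y ∂μ, 0 < f y := Measure.rnDeriv_pos hac
  have hae3 : ∀ᵐ y ∂μ, κ y (W ⁻¹' {y} ∩ Set.Ico 0 1)ᶜ = 0 := by
    have hZ : MeasurableSet {p : ℝ × ℝ | p.2 ∈ (W ⁻¹' {p.1} ∩ Set.Ico 0 1)ᶜ} := by
      have c1 : MeasurableSet {p : ℝ × ℝ | W p.2 = p.1} :=
        measurableSet_eq_fun (hW.comp measurable_snd) measurable_fst
      have c2 : MeasurableSet {p : ℝ × ℝ | p.2 ∈ Set.Ico (0 : ℝ) 1} :=
        measurable_snd measurableSet_Ico
      exact (c1.inter c2).compl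
    have h1 := Measure.lintegral_condKernel_mem (ρ := ρ) hZ
    have h2 : ρ {p : ℝ × ℝ | p.2 ∈ (W ⁻¹' {p.1} ∩ Set.Ico 0 1)ᶜ} = 0 := by
      rw [hρ, Measure.map_apply hWW hZ, Measure.restrict_apply (hWW hZ)]
      refine measure_mono_null (fun x hx => ?_) measure_empty
      exact hx.1 ⟨rfl, hx.2⟩
    rw [h2, hfst] at h1
    exact (lintegral_eq_zero_iff (Kernel.measurable_kernel_prodMk_left (κ := κ) hZ)).1 h1
  filter_upwards [hae1, hae2, hae3] with y h1 h2 h3
  obtain ⟨n0, hn0⟩ := ((ENNReal.tendsto_sum_nat_add (fun n => F n y) h1.ne).eventually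
    (gt_mem_nhds zero_lt_one)).exists
  set H : Set ℝ := ⋃ k : ℕ, ⋃ t ∈ (Finset.range (b ^ (k + n0))).filter (fun t => y ∈ A (k + n0) t),
    Ib b (k + n0) t with hH
  have hHm : MeasurableSet H :=
    MeasurableSet.iUnion fun k => Finset.measurableSet_biUnion _ fun t _ => meas_Ib _ _ _
  have hH1 : κ y H < 1 := by
    refine lt_of_le_of_lt ((measure_iUnion_le _).trans (ENNReal.tsum_le_tsum fun k => ?_)) hn0
    refine (measure_biUnion_finset_le _ _).trans (le_of_eq ?_)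
    simp only [hF]
    rw [Finset.sum_filter]
    exact Finset.sum_congr rfl fun t _ => by simp [Set.indicator]
  refine frostman ((κ y).restrict Hᶜ) ?_ hb hs (c := 3 * (f y)⁻¹)
    (ENNReal.mul_ne_top (by simp) (ENNReal.inv_ne_top.2 h2.ne')) n0 fun n hn U hU => ?_
  · rw [Measure.restrict_apply' hHm.compl]
    intro h0
    have : κ y Set.univ ≤ κ y (W ⁻¹' {y} ∩ Set.Ico 0 1 ∩ Hᶜ) +
        (κ y (W ⁻¹' {y} ∩ Set.Ico 0 1)ᶜ + κ y H) := by
      refine le_trans (measure_mono fun x _ => ?_) ((measure_union_le _ _).trans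
        (add_le_add le_rfl (measure_union_le _ _)))
      by_cases a1 : x ∈ W ⁻¹' {y} ∩ Set.Ico 0 1
      · by_cases a2 : x ∈ H
        · exact Or.inr (Or.inr a2)
        · exact Or.inl ⟨a1, a2⟩
      · exact Or.inr (Or.inl a1)
    rw [h0, h3, zero_add, zero_add, measure_univ] at this
    exact absurd hH1 (not_lt.2 this)
  · rw [mul_assoc]
    refine three_cover (by omega) n _ ?_ (fun t ht => ?_) hU
    · refine le_antisymm ((Measure.restrict_apply_le _ _).trans (le_of_eq ?_)) bot_le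
      exact measure_mono_null (Set.compl_subset_compl.2 Set.inter_subset_right) h3
    · by_cases hy : y ∈ A n t
      · rw [Measure.restrict_apply' hHm.compl]
        refine le_trans (le_of_eq (measure_mono_null (fun x hx => hx.2 ?_) measure_empty)) bot_le
        obtain ⟨k, rfl⟩ := Nat.exists_eq_add_of_le' hn
        exact Set.mem_iUnion.2 ⟨k, Set.mem_biUnion (Finset.mem_coe.2
          (Finset.mem_filter.2 ⟨Finset.mem_range.2 ht, hy⟩)) hx.1⟩
      · refine (Measure.restrict_apply_le _ _).trans ?_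
        have h4 : κ y (Ib b n t) * f y ≤ σ n := not_lt.1 hy
        rw [mul_comm, ← div_eq_mul_inv]
        exact (ENNReal.le_div_iff_mul_le (Or.inl h2.ne') (Or.inr (hσ1 n))).2 h4

end Pool.Agent.H135Z.Wei
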