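import Pool.Agent.H135Z.Wei.Determ

set_option autoImplicit false

namespace Pool.Agent.H135Z.Wei

open MeasureTheory ProbabilityTheory Filter Topology Metric
open scoped ENNReal NNReal

theorem density_ae {l : ℝ} (hl0 : 0 < l) (hl : l < 1) {b : ℕ} (hb : 2 ≤ b) {W : ℝ → ℝ}
    (hW : Measurable W) {K : ℝ≥0∞} (hK : K ≠ ⊤) (h : Unif l b W K) {H : ℝ} (hH : 0 < H)
    (hol : ∀ (n : ℕ) (x y : ℝ), |x - y| ≤ 1 / (b : ℝ) ^ n → |W x - W y| ≤ H * l ^ n)
    {Y : Set ℝ} (hY : ∀ᵐ y ∂((volume.restrict (Set.Ico (0 : ℝ) 1)).map W), y ∈ Y) :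
    ∀ᵐ y ∂(volume : Measure ℝ), y ∈ W '' Set.Ico 0 1 → y ∈ Y := by
  have hb0 : (0 : ℝ) < b := by have : 0 < b := by omega
                               exact_mod_cast this
  set μ := (volume.restrict (Set.Ico (0 : ℝ) 1)).map W with hμ
  set N := toMeasurable μ Yᶜ with hN
  have hNm : MeasurableSet N := measurableSet_toMeasurable _ _
  have hN0 : μ N = 0 := by rw [hN, measure_toMeasurable]; exact hY
  rw [hμ, Measure.map_apply hW hNm, Measure.restrict_apply (hW hNm)] at hN0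
  filter_upwards [Besicovitch.ae_tendsto_measure_inter_div_of_measurableSet volume hNm] with y hy
  rintro ⟨x, hx, rfl⟩
  by_contra hyY
  have hyN : W x ∈ N := subset_toMeasurable _ _ hyY
  rw [Set.indicator_of_mem hyN, Pi.one_apply] at hy
  set Kr := K.toReal + 1 with hKr
  have hKr0 : 0 < Kr := by positivity
  have hKK : K ≤ ENNReal.ofReal Kr := by
    rw [← ENNReal.ofReal_toReal hK]
    exact ENNReal.ofReal_le_ofReal (by linarith)
  have hr : Tendsto (fun n : ℕ => H * l ^ n) atTop (𝓝[>] 0) := by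
    refine tendsto_nhdsWithin_iff.2 ⟨?_, Eventually.of_forall fun n => ?_⟩
    · simpa using (tendsto_pow_atTop_nhds_zero_of_lt_one hl0.le hl).const_mul H
    · show 0 < H * l ^ n
      positivity
  have hle : ∀ n : ℕ, volume (N ∩ closedBall (W x) (H * l ^ n)) /
      volume (closedBall (W x) (H * l ^ n)) ≤ ENNReal.ofReal (1 - 1 / (8 * Kr * H)) := by
    intro n
    set B := closedBall (W x) (H * l ^ n) with hB
    have hBm : MeasurableSet B := measurableSet_closedBall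
    have hvB : volume B = ENNReal.ofReal (2 * (H * l ^ n)) := Real.volume_closedBall _ _
    obtain ⟨h1, h2⟩ := mem_Ib_floor (b := b) (by omega) n hx
    set t := ⌊(b : ℝ) ^ n * x⌋₊
    have a1 : ENNReal.ofReal (1 / (b : ℝ) ^ n) ≤ volume (Ib b n t ∩ W ⁻¹' (B \ N)) := by
      rw [← vol_Ib n t]
      have : Ib b n t ⊆ (Ib b n t ∩ W ⁻¹' (B \ N)) ∪ (W ⁻¹' N ∩ Set.Ico 0 1) := by
        intro z hz
        by_cases hzN : W z ∈ N
        · exact Or.inr ⟨hzN, Ib_subset (by omega) h2 hz⟩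
        · exact Or.inl ⟨hz, hol n z x (dist_Ib (by omega) hz h1), hzN⟩
      refine (measure_mono this).trans ((measure_union_le _ _).trans ?_)
      rw [hN0, add_zero]
    have hδ : (0 : ℝ) < (b * l) ^ n / (2 * Kr) := by positivity
    have a2 := a1.trans (h n t h2 (B \ N) (hBm.diff hNm) (ENNReal.ofReal ((b * l) ^ n / (2 * Kr)))
      (ENNReal.ofReal_pos.2 hδ).ne' ENNReal.ofReal_ne_top)
    have hfin : volume (B \ N) ≠ ⊤ :=
      ne_top_of_le_ne_top (by rw [hvB]; exact ENNReal.ofReal_ne_top) (measure_mono Set.diff_subset)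
    have hfin' : volume (N ∩ B) ≠ ⊤ :=
      ne_top_of_le_ne_top (by rw [hvB]; exact ENNReal.ofReal_ne_top) (measure_mono Set.inter_subset_right)
    set v := (volume (B \ N)).toReal with hv
    set w := (volume (N ∩ B)).toReal with hw
    have hv0 : 0 ≤ v := ENNReal.toReal_nonneg
    have hw0 : 0 ≤ w := ENNReal.toReal_nonneg
    have a3 : ENNReal.ofReal (1 / (b : ℝ) ^ n) ≤ ENNReal.ofReal ((b * l) ^ n / (2 * Kr) *
        (Kr * (1 / ((b : ℝ) ^ 2 * l) ^ n)) + ((b * l) ^ n / (2 * Kr))⁻¹ * v) := by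
      refine a2.trans ?_
      rw [ENNReal.ofReal_add (by positivity) (by positivity), ENNReal.ofReal_mul hδ.le,
        ENNReal.ofReal_mul hKr0.le, ENNReal.ofReal_mul (by positivity),
        ENNReal.ofReal_inv_of_pos hδ, hv, ENNReal.ofReal_toReal hfin]
      gcongr
    rw [ENNReal.ofReal_le_ofReal_iff (by positivity)] at a3
    have a4 : l ^ n / (4 * Kr) ≤ v := by
      have e1 : (b * l) ^ n / (2 * Kr) * (Kr * (1 / ((b : ℝ) ^ 2 * l) ^ n)) =
          1 / (b : ℝ) ^ n / 2 := by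
        simp only [mul_pow, sq]; field_simp
      rw [e1] at a3
      have a5 : 1 / (b : ℝ) ^ n / 2 ≤ ((b * l) ^ n / (2 * Kr))⁻¹ * v := by linarith
      rw [le_inv_mul_iff₀ hδ] at a5
      refine le_trans (le_of_eq ?_) a5
      simp only [mul_pow]; field_simp; ring
    have a6 : w + v = 2 * (H * l ^ n) := by
      rw [hw, hv, ← ENNReal.toReal_add hfin' hfin, Set.inter_comm, measure_inter_add_diff _ hNm, hvB,
        ENNReal.toReal_ofReal (by positivity)]
    rw [← ENNReal.ofReal_toReal hfin', ← hw, hvB, ← ENNReal.ofReal_div_of_pos (by positivity)]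
    refine ENNReal.ofReal_le_ofReal ?_
    rw [div_le_iff₀ (by positivity)]
    have e2 : (1 - 1 / (8 * Kr * H)) * (2 * (H * l ^ n)) = 2 * (H * l ^ n) - l ^ n / (4 * Kr) := by
      field_simp; ring
    linarith
  have := le_of_tendsto' (hy.comp hr) hle
  rw [ENNReal.one_le_ofReal] at this
  have : 0 < 1 / (8 * Kr * H) := by positivity
  linarith

theorem upper_ae {l : ℝ} (hl0 : 0 < l) {b : ℕ} (hb : 2 ≤ b) {W : ℝ → ℝ} {H : ℝ} (hH : 0 < H)
    (hol : ∀ (n : ℕ) (x y : ℝ), |x - y| ≤ 1 / (b : ℝ) ^ n → |W x - W y| ≤ H * l ^ n)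
    {s : ℝ≥0} (hsl : l * b < (b : ℝ) ^ (s : ℝ)) :
    ∀ᵐ y ∂(volume : Measure ℝ), dimH (W ⁻¹' {y} ∩ Set.Ico 0 1) ≤ s := by
  have hb1 : (1 : ℝ) < b := by exact_mod_cast hb
  have hb0 : (0 : ℝ) < b := by linarith
  set σ : ℕ → ℝ≥0∞ := fun n => ENNReal.ofReal ((1 / (b : ℝ) ^ n) ^ (s : ℝ)) with hσ
  set B : ℕ → ℕ → Set ℝ := fun n t => closedBall (W (t / (b : ℝ) ^ n)) (H * l ^ n) with hB
  set G : ℕ → ℝ → ℝ≥0∞ := fun n y =>
    ∑ t ∈ Finset.range (b ^ n), (B n t).indicator (fun _ => σ n) y with hG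
  have hm : ∀ n t, Measurable ((B n t).indicator fun _ => σ n) := fun n t =>
    measurable_const.indicator measurableSet_closedBall
  have hGm : ∀ n, Measurable (G n) := fun n => Finset.measurable_sum _ fun t _ => hm n t
  have hsum : ∫⁻ y, ∑' n, G n y ≠ ⊤ := by
    rw [lintegral_tsum fun n => (hGm n).aemeasurable]
    have hr : l * b / (b : ℝ) ^ (s : ℝ) < 1 := by rwa [div_lt_one (by positivity)]
    have : ∀ n, ∫⁻ y, G n y =
        ENNReal.ofReal (2 * H) * ENNReal.ofReal (l * b / (b : ℝ) ^ (s : ℝ)) ^ n := by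
      intro n
      simp only [hG]
      rw [lintegral_finsetSum _ fun t _ => hm n t]
      simp only [hB, lintegral_indicator measurableSet_closedBall, setLIntegral_const,
        Real.volume_closedBall, Finset.sum_const, Finset.card_range, nsmul_eq_mul, hσ]
      rw [← ENNReal.ofReal_natCast, ← ENNReal.ofReal_mul (by positivity),
        ← ENNReal.ofReal_mul (by positivity), ← ENNReal.ofReal_pow (by positivity),
        ← ENNReal.ofReal_mul (by positivity)]
      congr 1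
      rw [one_div, Real.inv_rpow (by positivity), div_pow, ← Real.rpow_natCast ((b : ℝ) ^ (s : ℝ)),
        ← Real.rpow_mul hb0.le, mul_comm (s : ℝ), Real.rpow_mul hb0.le, Real.rpow_natCast, mul_pow]
      push_cast
      field_simp
    simp_rw [this]
    rw [ENNReal.tsum_mul_left, ENNReal.tsum_geometric]
    refine ENNReal.mul_ne_top ENNReal.ofReal_ne_top (ENNReal.inv_ne_top.2 ?_)
    exact (tsub_pos_iff_lt.2 (ENNReal.ofReal_lt_one.2 hr)).ne'
  filter_upwards [ae_lt_top (Measurable.tsum hGm) hsum] with y hy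
  have h0 := ENNReal.tendsto_atTop_zero_of_tsum_ne_top hy.ne
  refine dimH_le_of_hausdorffMeasure_ne_top (ne_top_of_le_ne_top ENNReal.zero_ne_top ?_)
  classical
  have hten : Tendsto (fun n : ℕ => ENNReal.ofReal (1 / (b : ℝ) ^ n)) atTop (𝓝 0) := by
    rw [← ENNReal.ofReal_zero]
    refine ENNReal.tendsto_ofReal ?_
    simp_rw [one_div]
    exact tendsto_inv_atTop_zero.comp (tendsto_pow_atTop_atTop_of_one_lt hb1)
  have hd : ∀ n t, ediam (Ib b n t) ≤ ENNReal.ofReal (1 / (b : ℝ) ^ n) := fun n t =>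
    ediam_le fun x hx z hz => by
      rw [edist_dist]
      exact ENNReal.ofReal_le_ofReal (dist_Ib (by omega) hx hz)
  refine (Measure.hausdorffMeasure_le_liminf_sum (s : ℝ) _
    (ι := fun n => ((Finset.range (b ^ n)).filter fun t => y ∈ B n t)) _ hten
    (fun n t => Ib b n t) (Eventually.of_forall fun n t => hd n t)
    (Eventually.of_forall fun n x hx => ?_)).trans ?_
  · obtain ⟨h1, h2⟩ := mem_Ib_floor (b := b) (by omega) n hx.2
    refine Set.mem_iUnion.2 ⟨⟨_, Finset.mem_filter.2 ⟨Finset.mem_range.2 h2, ?_⟩⟩, h1⟩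
    have : W x = y := hx.1
    rw [← this]
    refine hol n _ _ (dist_Ib (by omega) h1 ?_)
    refine ⟨le_rfl, ?_⟩
    gcongr
    linarith
  · rw [← h0.liminf_eq]
    refine liminf_le_liminf (Eventually.of_forall fun n => ?_)
    rw [Finset.sum_coe_sort _ fun t => ediam (Ib b n t) ^ (s : ℝ), Finset.sum_filter]
    refine Finset.sum_le_sum fun t _ => ?_
    by_cases hy' : y ∈ B n t
    · rw [if_pos hy', Set.indicator_of_mem hy']
      simp only [hσ]
      rw [← ENNReal.ofReal_rpow_of_nonneg (by positivity) (NNReal.coe_nonneg s)]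
      gcongr
      exact hd n t
    · simp [hy']

theorem determ {α : ℝ} (h0 : 0 < α) (h1 : α < 1) {b : ℕ} (hb : 2 ≤ b) {W : ℝ → ℝ}
    (hW : Measurable W) {K : ℝ≥0∞} (hK : K ≠ ⊤) (h : Unif ((b : ℝ) ^ (-α)) b W K) {H : ℝ}
    (hH : 0 < H)
    (hol : ∀ (n : ℕ) (x y : ℝ), |x - y| ≤ 1 / (b : ℝ) ^ n →
      |W x - W y| ≤ H * ((b : ℝ) ^ (-α)) ^ n) :
    ∀ᵐ y ∂(volume : Measure ℝ), y ∈ W '' Set.Ico 0 1 →
      dimH (W ⁻¹' {y} ∩ Set.Ico 0 1) = ENNReal.ofReal (1 - α) := by
  have hb1 : (1 : ℝ) < b := by exact_mod_cast hb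
  have hb0 : (0 : ℝ) < b := by linarith
  have hl0 : 0 < (b : ℝ) ^ (-α) := by positivity
  have hl : (b : ℝ) ^ (-α) < 1 := Real.rpow_lt_one_of_one_lt_of_neg hb1 (by linarith)
  have e : (b : ℝ) ^ (-α) * b = (b : ℝ) ^ (1 - α) := by
    rw [sub_eq_neg_add, Real.rpow_add hb0, Real.rpow_one]
  have u1 : ∀ᵐ y ∂(volume : Measure ℝ), ∀ q : ℚ, 1 - α < q →
      dimH (W ⁻¹' {y} ∩ Set.Ico 0 1) ≤ Real.toNNReal q := by
    rw [ae_all_iff]
    intro q
    by_cases hq : 1 - α < q
    · have := upper_ae hl0 hb hH hol (s := Real.toNNReal q) (by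
        rw [e, Real.coe_toNNReal _ (by linarith)]
        exact Real.rpow_lt_rpow_of_exponent_lt hb1 hq)
      filter_upwards [this] with y hy _ using hy
    · exact ae_of_all _ fun y h => absurd h hq
  have u2 : ∀ᵐ y ∂((volume.restrict (Set.Ico (0 : ℝ) 1)).map W), y ∈ {y | ∀ q : ℚ, 0 < (q : ℝ) →
      q < 1 - α → (Real.toNNReal q : ℝ≥0∞) ≤ dimH (W ⁻¹' {y} ∩ Set.Ico 0 1)} := by
    simp only [Set.mem_ofPred_eq]
    rw [ae_all_iff]
    intro q
    by_cases hq : 0 < (q : ℝ) ∧ q < 1 - α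
    · have := lower_ae hl0 hb hW hK h (s := Real.toNNReal q) (Real.toNNReal_pos.2 hq.1) (by
        rw [e, Real.coe_toNNReal _ hq.1.le]
        exact Real.rpow_lt_rpow_of_exponent_lt hb1 hq.2)
      filter_upwards [this] with y hy _ _ using hy
    · exact ae_of_all _ fun y h h' => absurd ⟨h, h'⟩ hq
  filter_upwards [u1, density_ae hl0 hl hb hW hK h hH hol u2] with y hy1 hy2 hy
  have hy3 := hy2 hy
  refine le_antisymm (le_of_forall_gt_imp_ge_of_dense fun c hc => ?_)
    (le_of_forall_lt_imp_le_of_dense fun c hc => ?_)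
  · obtain ⟨q, hq0, hq1, hq2⟩ := ENNReal.lt_iff_exists_rat_btwn.1 hc
    refine (hy1 q ?_).trans hq2.le
    exact (ENNReal.ofReal_lt_ofReal_iff_of_nonneg (by linarith)).1 hq1
  · obtain ⟨q, hq0, hq1, hq2⟩ := ENNReal.lt_iff_exists_rat_btwn.1 hc
    refine hq1.le.trans (hy3 q ?_ ?_)
    · have : (0 : ℝ≥0∞) < Real.toNNReal q := lt_of_le_of_lt bot_le hq1
      simpa using this
    · exact ((ENNReal.ofReal_lt_ofReal_iff (by linarith)).1 hq2)

end Pool.Agent.H135Z.Wei
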