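import Pool.Agent.H135Z.Wei.Psi

set_option autoImplicit false
set_option maxHeartbeats 400000

namespace Pool.Agent.H135Z.Wei

open MeasureTheory ProbabilityTheory Complex Filter Topology
open scoped ENNReal NNReal

theorem params {l : ℝ} (hl0 : 0 < l) (hl : l < 1) {b : ℕ} (hlb : 1 < l * b) :
    ∃ k m M L j : ℕ,
      (2 * (k + 1) : ℕ) * (b ^ (2 * m) : ℕ) / (l * b) ^ M / (l * b - 1) ≤ 1 / 8 ∧
      2 * (2 * (k + 1) : ℕ) * l ^ (L + 1) / (1 - l) ≤ 1 / 8 ∧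
      (2 / l ^ (2 * m)) ^ 2 ≤ (l * b) ^ j ∧
      (b : ℝ) ^ (2 * j) * (2 * (2 / l ^ (2 * m))) ^ (k + 1) *
        (((Qc (2 * (k + 1)) b M L * (1 + 2 * (2 * (k + 1))) : ℕ) / (b : ℝ) ^ m) ^ (2 * (k + 1))) < 1 := by
  have hb : (0 : ℝ) < b := by
    by_contra hc
    push Not at hc
    nlinarith
  obtain ⟨r, hr⟩ : ∃ r, r = l * b := ⟨_, rfl⟩
  rw [← hr] at hlb ⊢
  have hr0 : 0 < r := by linarith
  obtain ⟨j1, hj1⟩ := pow_unbounded_of_one_lt (4 / l ^ 4) hlb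
  obtain ⟨k, hk⟩ := pow_unbounded_of_one_lt ((b : ℝ) ^ (2 * j1)) hlb
  obtain ⟨P, hP⟩ : ∃ P, P = 2 * (k + 1) := ⟨_, rfl⟩
  have hP0 : (0 : ℝ) < P := by rw [hP]; positivity
  obtain ⟨L, hL⟩ := exists_pow_lt_of_lt_one (x := (1 - l) / (16 * P))
    (div_pos (by linarith) (by positivity)) hl
  obtain ⟨j2, hj2⟩ := pow_unbounded_of_one_lt ((b : ℝ) ^ 2) hlb
  obtain ⟨M0, hM0⟩ := pow_unbounded_of_one_lt (8 * P / (r - 1)) hlb
  set c0 : ℕ := (P + 1) * (j2 + M0 + L + 1) * ((4 * (b ^ L + 3) + 1) * (2 * (b ^ L + 1) + 1)) *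
    (1 + 2 * P) with hc0
  have hc0p : (0 : ℝ) < c0 := by rw [hc0]; positivity
  obtain ⟨m, hm, hm1⟩ := (((tendsto_pow_const_div_const_pow_of_one_lt 2 hlb).eventually
    (gt_mem_nhds (show (0 : ℝ) < 1 / (4 * c0 ^ 2) by positivity))).and
    (eventually_ge_atTop 1)).exists
  refine ⟨k, m, m * j2 + M0, L, m * j1, ?_, ?_, ?_, ?_⟩
  · rw [← hP, div_le_iff₀ (by linarith), div_le_iff₀ (by positivity), pow_add]
    have h1 : ((b ^ (2 * m) : ℕ) : ℝ) ≤ r ^ (m * j2) := by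
      push_cast
      rw [pow_mul, mul_comm m j2, pow_mul]
      gcongr
    rw [div_lt_iff₀ (by linarith)] at hM0
    calc (P : ℝ) * (b ^ (2 * m) : ℕ) ≤ (1 / 8 * (r - 1) * r ^ M0) * r ^ (m * j2) := by
          gcongr; linarith
      _ = _ := by ring
  · rw [← hP, div_le_iff₀ (by linarith)]
    rw [lt_div_iff₀ (by positivity)] at hL
    have h1 : l ^ (L + 1) ≤ l ^ L := pow_le_pow_of_le_one hl0.le hl.le (by omega)
    nlinarith
  · calc (2 / l ^ (2 * m)) ^ 2 = 4 / (l ^ 4) ^ m := by rw [div_pow, ← pow_mul, ← pow_mul]; ring_nf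
      _ ≤ 4 ^ m / (l ^ 4) ^ m := by
          gcongr
          exact le_self_pow₀ (by norm_num) (by omega)
      _ = (4 / l ^ 4) ^ m := by rw [div_pow]
      _ ≤ (r ^ j1) ^ m := by gcongr
      _ = _ := by rw [← pow_mul, mul_comm]
  · obtain ⟨A, hA⟩ : ∃ A, A = Qc (2 * (k + 1)) b (m * j2 + M0) L * (1 + 2 * (2 * (k + 1))) := ⟨_, rfl⟩
    rw [← hA]
    have hAle : A ≤ c0 * m := by
      rw [hA, ← hP, Qc, hc0]
      have : m * j2 + M0 + L + 1 ≤ (j2 + M0 + L + 1) * m := by nlinarith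
      calc _ ≤ (P + 1) * ((j2 + M0 + L + 1) * m) *
          ((4 * (b ^ L + 3) + 1) * (2 * (b ^ L + 1) + 1)) * (1 + 2 * P) := by gcongr
        _ = _ := by ring
    have hAle' : (A : ℝ) ≤ c0 * m := by exact_mod_cast hAle
    have h1 : (b : ℝ) ^ (2 * (m * j1)) ≤ (r ^ m) ^ (k + 1) := by
      rw [← pow_mul, mul_comm m (k + 1), pow_mul r, show 2 * (m * j1) = 2 * j1 * m by ring, pow_mul]
      gcongr
      exact hk.le.trans (pow_le_pow_right₀ hlb.le (by omega))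
    have h2 : 4 * (A : ℝ) ^ 2 / r ^ m < 1 := by
      rw [div_lt_div_iff₀ (by positivity) (by positivity)] at hm
      rw [div_lt_one (by positivity)]
      have : (A : ℝ) ^ 2 ≤ (c0 * m) ^ 2 := by gcongr
      nlinarith
    calc (b : ℝ) ^ (2 * (m * j1)) * (2 * (2 / l ^ (2 * m))) ^ (k + 1) *
          ((A : ℝ) / (b : ℝ) ^ m) ^ (2 * (k + 1))
        ≤ (r ^ m) ^ (k + 1) * (2 * (2 / l ^ (2 * m))) ^ (k + 1) *
          ((A : ℝ) / (b : ℝ) ^ m) ^ (2 * (k + 1)) := by gcongr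
      _ = (4 * (A : ℝ) ^ 2 / r ^ m) ^ (k + 1) := by
          rw [pow_mul ((A : ℝ) / _), ← mul_pow, ← mul_pow]
          congr 1
          rw [hr, mul_pow, mul_comm 2 m, pow_mul]
          field_simp
          ring
      _ < 1 := pow_lt_one₀ (by positivity) h2 (by omega)

theorem expect_Bf {l : ℝ} (hl0 : 0 < l) (hl : l < 1) {b : ℕ} (hlb : 1 < l * b) {k m M L : ℕ}
    (hM : (2 * (k + 1) : ℕ) * (b ^ (2 * m) : ℕ) / (l * b) ^ M / (l * b - 1) ≤ 1 / 8)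
    (hL : 2 * (2 * (k + 1) : ℕ) * l ^ (L + 1) / (1 - l) ≤ 1 / 8)
    {W : ℝ → ℝ} (hW : Measurable W) (c n t : ℕ) {ξ : ℝ} (hξ : ξ ∈ shell (2 / l ^ (2 * m)) c) :
    ∫⁻ τ, ‖Bf l b (fun x => W x + ∑ a : Fin (b ^ (2 * m)), τ a * Wr l b (tent (b ^ (2 * m)) a) x)
      n t ξ‖ₑ ^ (2 * (k + 1)) ∂(gm (b ^ (2 * m))) ≤
      ENNReal.ofReal (((((Qc (2 * (k + 1)) b M L * (1 + 2 * (2 * (k + 1))) : ℕ) /
        (b : ℝ) ^ m) ^ (2 * (k + 1))) ^ c) + Real.exp (-(4 ^ c / 512))) := by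
  have hb : (0 : ℝ) < b := by
    by_contra hc
    push Not at hc
    nlinarith
  have hbn : 0 < b := by exact_mod_cast hb
  have hcard : Fintype.card (Fin (k + 1) × Bool) = 2 * (k + 1) := by simp [mul_comm]
  have h1 := moment hl0 hl b (b ^ (2 * m)) hW n t (k + 1) ((l ^ n)⁻¹ * ξ)
    (ρ := l ^ (n + 2 * m * c) / 16) (by positivity)
  have h2 := vol_good hl0 hl hlb (abs_sg (k + 1)) (M := M) (L := L) (m := m)
    (by rw [hcard]; exact hM) (by rw [hcard]; exact hL) c n (fun _ => t) le_rfl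
  rw [hcard] at h2
  obtain ⟨A, hA⟩ : ∃ A, A = Qc (2 * (k + 1)) b M L * (1 + 2 * (2 * (k + 1))) := ⟨_, rfl⟩
  rw [← hA] at h2 ⊢
  simp_rw [Bf_eq hbn, enorm_smul, mul_pow]
  rw [lintegral_const_mul' _ _ (ENNReal.pow_ne_top enorm_ne_top)]
  refine (mul_le_mul_right (h1.trans (add_le_add h2 le_rfl)) _).trans ?_
  rw [Real.enorm_of_nonneg (by positivity), ← ENNReal.ofReal_pow (by positivity),
    ← ENNReal.ofReal_pow (by positivity), ← ENNReal.ofReal_mul (by positivity),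
    ← ENNReal.ofReal_add (by positivity) (by positivity), ← ENNReal.ofReal_mul (by positivity)]
  refine ENNReal.ofReal_le_ofReal ?_
  have e1 : ((b : ℝ) ^ n) ^ (2 * (k + 1)) * (1 / (b : ℝ) ^ n) ^ (2 * (k + 1)) = 1 := by
    rw [← mul_pow, mul_one_div_cancel (by positivity), one_pow]
  rw [mul_add, mul_pow, mul_left_comm, e1, mul_one, mul_left_comm, e1, mul_one, ← pow_mul,
    ← pow_mul, mul_comm c]
  refine add_le_add le_rfl (Real.exp_le_exp.2 ?_)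
  have h3 : 2 ^ c ≤ |ξ| * l ^ (2 * m * c) := by
    have := hξ.1
    rw [div_pow, ← pow_mul, div_le_iff₀ (by positivity)] at this
    exact this
  have h4 : (2 ^ c) ^ 2 ≤ (|ξ| * l ^ (2 * m * c)) ^ 2 := by gcongr
  have e2 : ((l ^ n)⁻¹ * ξ * (l ^ (n + 2 * m * c) / 16)) ^ 2 =
      (|ξ| * l ^ (2 * m * c)) ^ 2 / 256 := by
    rw [mul_pow |ξ|, sq_abs, pow_add]; field_simp; ring
  have e3 : ((2 : ℝ) ^ c) ^ 2 = 4 ^ c := by rw [← pow_mul, mul_comm, pow_mul]; norm_num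
  rw [e2]
  linarith

theorem expect_psi {l : ℝ} (hl0 : 0 < l) (hl : l < 1) {b : ℕ} (hlb : 1 < l * b) :
    ∃ (D : ℕ) (Λ : ℝ) (j k : ℕ), 2 ≤ Λ ∧ Λ ^ 2 ≤ (l * b) ^ j ∧ ∀ W : ℝ → ℝ, Measurable W →
      ∫⁻ τ, Psi l b Λ j k (fun x => W x + ∑ a : Fin D, τ a * Wr l b (tent D a) x) ∂(gm D) ≠ ⊤ := by
  obtain ⟨k, m, M, L, j, hM, hL, hj, hZ⟩ := params hl0 hl hlb
  have hb1 : (1 : ℝ) < b := by
    by_contra hc
    push Not at hc
    nlinarith
  have hb2 : 2 ≤ b := by exact_mod_cast hb1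
  have hΛ : 2 ≤ 2 / l ^ (2 * m) := by
    rw [le_div_iff₀ (by positivity)]
    have := pow_le_one₀ (n := 2 * m) hl0.le hl.le
    linarith
  refine ⟨b ^ (2 * m), 2 / l ^ (2 * m), j, k, hΛ, hj, fun W hW => ?_⟩
  have hE := fun c n t ξ (hξ : ξ ∈ shell (2 / l ^ (2 * m)) c) =>
    expect_Bf hl0 hl hlb hM hL hW c n t hξ
  obtain ⟨θ, hθ⟩ : ∃ θ, θ = (((Qc (2 * (k + 1)) b M L * (1 + 2 * (2 * (k + 1))) : ℕ) /
        (b : ℝ) ^ m) ^ (2 * (k + 1))) := ⟨_, rfl⟩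
  have hθ0 : 0 ≤ θ := by rw [hθ]; positivity
  rw [← hθ] at hZ hE
  obtain ⟨Λ, hΛd⟩ : ∃ Λ, Λ = 2 / l ^ (2 * m) := ⟨_, rfl⟩
  rw [← hΛd] at hZ hE hΛ ⊢
  obtain ⟨D, hD⟩ : ∃ D, D = b ^ (2 * m) := ⟨_, rfl⟩
  rw [← hD] at hE ⊢
  have hΛ0 : 0 < Λ := by linarith
  have hTm : ∀ a, Measurable (Wr l b (tent D a)) := fun a => (cont_WT hl0 hl b D a).measurable
  obtain ⟨Wp, hWp⟩ : ∃ Wp : (Fin D → ℝ) → ℝ → ℝ,
    Wp = fun τ x => W x + ∑ a : Fin D, τ a * Wr l b (tent D a) x := ⟨_, rfl⟩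
  have hWpm : Measurable fun q : (Fin D → ℝ) × ℝ => Wp q.1 q.2 := by
    rw [hWp]; fun_prop
  have hE' : ∀ c n t ξ, ξ ∈ shell Λ c → ∫⁻ τ, ‖Bf l b (Wp τ) n t ξ‖ₑ ^ (2 * (k + 1)) ∂(gm D) ≤
      ENNReal.ofReal (θ ^ c + Real.exp (-(4 ^ c / 512))) := by
    rw [hWp]; exact hE
  suffices h : ∫⁻ τ, Psi l b Λ j k (Wp τ) ∂(gm D) ≠ ⊤ by
    rw [hWp] at h; exact h
  have hterm : ∀ c n t, ∫⁻ τ, term l b Λ k (Wp τ) c n t ∂(gm D) ≤
      ENNReal.ofReal (2 * Λ * ((2 * Λ) ^ (k + 1)) ^ c * (θ ^ c + Real.exp (-(4 ^ c / 512)))) := by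
    intro c n t
    unfold term
    rw [lintegral_lintegral_swap (f := fun τ ξ => ENNReal.ofReal ((2 * Λ) ^ (c * k)) *
      ‖Bf l b (Wp τ) n t ξ‖ₑ ^ (2 * (k + 1)))
      (((meas_Bf hWpm l b n t).enorm.pow_const _).const_mul _).aemeasurable]
    refine (setLIntegral_mono' (meas_shell Λ c) (g := fun _ => ENNReal.ofReal ((2 * Λ) ^ (c * k)) *
      ENNReal.ofReal (θ ^ c + Real.exp (-(4 ^ c / 512)))) fun ξ hξ => ?_).trans ?_
    · rw [lintegral_const_mul' _ _ ENNReal.ofReal_ne_top]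
      exact mul_le_mul_right (hE' c n t ξ hξ) _
    · rw [setLIntegral_const]
      refine (mul_le_mul_right (vol_shell Λ c) _).trans ?_
      rw [← ENNReal.ofReal_mul (by positivity), ← ENNReal.ofReal_mul (by positivity)]
      refine ENNReal.ofReal_le_ofReal ?_
      rw [mul_right_comm]
      refine mul_le_mul_of_nonneg_right ?_ (by positivity)
      calc (2 * Λ) ^ (c * k) * (2 * Λ ^ (c + 1)) = 2 * Λ * ((2 * Λ) ^ (c * k) * Λ ^ c) := by ring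
        _ ≤ 2 * Λ * ((2 * Λ) ^ (c * k) * (2 * Λ) ^ c) := by gcongr; linarith
        _ = _ := by ring
  set Z := (b : ℝ) ^ (2 * j) * (2 * Λ) ^ (k + 1) with hZd
  have hZ0 : 0 < Z := by positivity
  have hm1 := fun c n t => meas_term hWpm l b Λ k c n t
  have hc : ∀ c, ∫⁻ τ, ∑ n ∈ Finset.range (c * j + 1), ∑ t ∈ Finset.range (b ^ n),
      term l b Λ k (Wp τ) c n t ∂(gm D) ≤
      ENNReal.ofReal (2 * Λ * (Z ^ c * (θ ^ c + Real.exp (-(4 ^ c / 512))))) := by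
    intro c
    rw [lintegral_finsetSum _ fun n _ => Finset.measurable_sum _ fun t _ => hm1 c n t]
    refine (Finset.sum_le_card_nsmul _ _ ((b ^ (c * j) : ℕ) * ENNReal.ofReal
      (2 * Λ * ((2 * Λ) ^ (k + 1)) ^ c * (θ ^ c + Real.exp (-(4 ^ c / 512)))))
      fun n hn => ?_).trans ?_
    · rw [lintegral_finsetSum _ fun t _ => hm1 c n t]
      refine (Finset.sum_le_card_nsmul _ _ _ fun t _ => hterm c n t).trans ?_
      rw [Finset.card_range, nsmul_eq_mul]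
      gcongr
      · omega
      · have := Finset.mem_range.1 hn
        omega
    · rw [Finset.card_range, nsmul_eq_mul, ← ENNReal.ofReal_natCast, ← ENNReal.ofReal_natCast,
        ← ENNReal.ofReal_mul (by positivity), ← ENNReal.ofReal_mul (by positivity)]
      refine ENNReal.ofReal_le_ofReal ?_
      have h1 : c * j + 1 ≤ b ^ (c * j) := Nat.lt_pow_self (by omega)
      have h2 : ((c * j + 1 : ℕ) : ℝ) ≤ ((b ^ (c * j) : ℕ) : ℝ) := by exact_mod_cast h1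
      refine (mul_le_mul_of_nonneg_right h2 (by positivity)).trans (le_of_eq ?_)
      rw [hZd]; push_cast; ring
  unfold Psi
  rw [lintegral_tsum fun c => (Finset.measurable_sum _ fun n _ =>
    Finset.measurable_sum _ fun t _ => hm1 c n t).aemeasurable]
  refine ne_top_of_le_ne_top (Summable.tsum_ofReal_ne_top ?_) (ENNReal.tsum_le_tsum hc)
  refine Summable.mul_left _ ?_
  simp_rw [mul_add, ← mul_pow]
  refine (summable_geometric_of_lt_one (by positivity) hZ).add ?_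
  obtain ⟨p, hp⟩ := pow_unbounded_of_one_lt Z (show (1 : ℝ) < 4 by norm_num)
  refine Summable.of_nonneg_of_le (fun c => by positivity) (fun c => ?_)
    ((summable_geometric_of_lt_one (r := Z / 4 ^ p) (by positivity)
      ((div_lt_one (by positivity)).2 hp)).mul_left ((p.factorial : ℝ) * 512 ^ p))
  have h1 := Real.pow_div_factorial_le_exp (4 ^ c / 512) (by positivity) p
  rw [Real.exp_neg]
  calc Z ^ c * (Real.exp (4 ^ c / 512))⁻¹ ≤ Z ^ c * (((4 : ℝ) ^ c / 512) ^ p / p.factorial)⁻¹ := by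
        gcongr
    _ = _ := by
        rw [div_pow, div_pow, ← pow_mul, ← pow_mul, mul_comm p c]
        field_simp

end Pool.Agent.H135Z.Wei
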