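import Mathlib

set_option autoImplicit false

namespace Pool.Agent.H135Z.Wei

open MeasureTheory ProbabilityTheory Complex Filter Topology
open scoped ENNReal

theorem gauss_one (s : ℝ) :
    ∫ t : ℝ, cexp (((t * s : ℝ) : ℂ) * I) ∂(gaussianReal 0 1) = (Real.exp (-(s ^ 2 / 2)) : ℝ) := by
  have h := charFun_gaussianReal (μ := 0) (v := 1) s
  rw [charFun_apply_real] at h
  push_cast at h ⊢
  simp only [mul_zero, zero_mul, one_mul, zero_sub] at h
  rw [← h]
  congr 1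
  funext t
  congr 1
  ring

theorem integrable_cexp {Ω : Type} [MeasurableSpace Ω] (π : Measure Ω) [IsFiniteMeasure π]
    {f : Ω → ℝ} (hf : Measurable f) : Integrable (fun ω => cexp ((f ω : ℂ) * I)) π := by
  refine Integrable.of_bound (C := 1) (by fun_prop) (ae_of_all _ fun ω => ?_)
  rw [Complex.norm_exp_ofReal_mul_I]

theorem gauss_le_volume : gaussianReal 0 1 ≤ (volume : Measure ℝ) := by
  rw [gaussianReal_of_var_ne_zero _ one_ne_zero]
  conv_rhs => rw [← withDensity_one (μ := (volume : Measure ℝ))]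
  refine withDensity_mono (ae_of_all _ fun x => ?_)
  simp only [gaussianPDF, gaussianPDFReal, Pi.one_apply, ENNReal.ofReal_le_one]
  have h1 : 1 ≤ √(2 * Real.pi * ((1 : NNReal) : ℝ)) := by
    rw [Real.one_le_sqrt]; simp; linarith [Real.pi_gt_three]
  have h2 : Real.exp (-(x - 0) ^ 2 / (2 * ((1 : NNReal) : ℝ))) ≤ 1 := by
    rw [Real.exp_le_one_iff]
    simp only [NNReal.coe_one]
    nlinarith [sq_nonneg (x - 0)]
  exact mul_le_one₀ (inv_le_one_of_one_le₀ h1) (Real.exp_pos _).le h2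

theorem lint_scale {f : ℝ → ℝ≥0∞} (hf : Measurable f) {a : ℝ} (ha : 0 < a) :
    ∫⁻ x, f (a * x) = ENNReal.ofReal a⁻¹ * ∫⁻ x, f x := by
  rw [← lintegral_map hf (measurable_const_mul a), Real.map_volume_mul_left ha.ne',
    lintegral_smul_measure, abs_of_pos (inv_pos.2 ha), smul_eq_mul]

theorem pair_bound (ν : Measure ℝ) [IsFiniteMeasure ν] {r : ℝ} (hr : 0 < r) :
    ν.prod ν {p | |p.1 - p.2| ≤ r} ≤ 2 * ENNReal.ofReal r * ∫⁻ ξ, ‖charFun ν ξ‖ₑ ^ 2 := by
  have hc : Continuous (charFun ν) := continuous_charFun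
  have h1 : ∀ ξ : ℝ, ((‖charFun ν ξ‖ ^ 2 : ℝ) : ℂ) =
      ∫ p : ℝ × ℝ, cexp (((ξ * (p.1 - p.2) : ℝ) : ℂ) * I) ∂(ν.prod ν) := by
    intro ξ
    have e : ((‖charFun ν ξ‖ ^ 2 : ℝ) : ℂ) = charFun ν ξ * charFun ν (-ξ) := by
      rw [charFun_neg, Complex.mul_conj, Complex.normSq_eq_norm_sq]
    rw [e, charFun_apply_real, charFun_apply_real, ← integral_prod_mul]
    congr 1
    funext p
    rw [← Complex.exp_add]
    congr 1
    push_cast
    ring
  have h2 : ∫ t : ℝ, ‖charFun ν (r⁻¹ * t)‖ ^ 2 ∂(gaussianReal 0 1) =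
      ∫ p : ℝ × ℝ, Real.exp (-((r⁻¹ * (p.1 - p.2)) ^ 2 / 2)) ∂(ν.prod ν) := by
    apply Complex.ofReal_injective
    rw [← integral_complex_ofReal, ← integral_complex_ofReal]
    simp_rw [h1]
    rw [integral_integral_swap]
    · congr 1
      funext p
      rw [← gauss_one]
      congr 1
      funext t
      congr 3
      ring
    · exact integrable_cexp _ (f := fun q : ℝ × (ℝ × ℝ) => r⁻¹ * q.1 * (q.2.1 - q.2.2))
        (by fun_prop)
  have hS : MeasurableSet {p : ℝ × ℝ | |p.1 - p.2| ≤ r} :=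
    measurableSet_le (by fun_prop) measurable_const
  have h3 : ENNReal.ofReal (1 / 2) * ν.prod ν {p | |p.1 - p.2| ≤ r} ≤
      ∫⁻ p : ℝ × ℝ, ENNReal.ofReal (Real.exp (-((r⁻¹ * (p.1 - p.2)) ^ 2 / 2))) ∂(ν.prod ν) := by
    rw [← setLIntegral_const]
    refine le_trans (setLIntegral_mono' hS fun p hp => ?_) (setLIntegral_le_lintegral _ _)
    refine ENNReal.ofReal_le_ofReal ?_
    have a1 : (r⁻¹ * (p.1 - p.2)) ^ 2 ≤ 1 := by
      rw [sq_le_one_iff_abs_le_one, abs_mul, abs_of_pos (inv_pos.2 hr), inv_mul_le_iff₀ hr, mul_one]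
      exact hp
    have := Real.add_one_le_exp (-((r⁻¹ * (p.1 - p.2)) ^ 2 / 2))
    linarith
  have i1 : Integrable (fun p : ℝ × ℝ => Real.exp (-((r⁻¹ * (p.1 - p.2)) ^ 2 / 2))) (ν.prod ν) := by
    refine Integrable.of_bound (C := 1) (by fun_prop) (ae_of_all _ fun p => ?_)
    rw [Real.norm_eq_abs, abs_of_pos (Real.exp_pos _), Real.exp_le_one_iff]
    nlinarith [sq_nonneg (r⁻¹ * (p.1 - p.2))]
  have i2 : Integrable (fun t : ℝ => ‖charFun ν (r⁻¹ * t)‖ ^ 2) (gaussianReal 0 1) := by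
    refine Integrable.of_bound (C := (ν.real Set.univ) ^ 2) (by fun_prop) (ae_of_all _ fun p => ?_)
    rw [Real.norm_eq_abs, abs_of_nonneg (by positivity)]
    gcongr
    exact norm_charFun_le _
  rw [← ofReal_integral_eq_lintegral_ofReal i1 (ae_of_all _ fun p => (Real.exp_pos _).le), ← h2,
    ofReal_integral_eq_lintegral_ofReal i2 (ae_of_all _ fun p => by positivity)] at h3
  have h4 : ∫⁻ t : ℝ, ENNReal.ofReal (‖charFun ν (r⁻¹ * t)‖ ^ 2) ∂(gaussianReal 0 1) ≤
      ENNReal.ofReal r * ∫⁻ ξ, ‖charFun ν ξ‖ₑ ^ 2 := by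
    refine (lintegral_mono' gauss_le_volume le_rfl).trans (le_of_eq ?_)
    have := lint_scale (f := fun ξ => ‖charFun ν ξ‖ₑ ^ 2) (by fun_prop) (inv_pos.2 hr)
    rw [inv_inv] at this
    rw [← this]
    congr 1
    funext t
    rw [ENNReal.ofReal_pow (norm_nonneg _), ofReal_norm]
  have h5 := h3.trans h4
  have e : (2 : ℝ≥0∞) * ENNReal.ofReal (1 / 2) = 1 := by
    rw [← ENNReal.ofReal_ofNat 2, ← ENNReal.ofReal_mul (by norm_num)]; norm_num
  calc ν.prod ν {p | |p.1 - p.2| ≤ r}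
      = 2 * (ENNReal.ofReal (1 / 2) * ν.prod ν {p | |p.1 - p.2| ≤ r}) := by
        rw [← mul_assoc, e, one_mul]
    _ ≤ 2 * (ENNReal.ofReal r * ∫⁻ ξ, ‖charFun ν ξ‖ₑ ^ 2) := by gcongr
    _ = _ := by rw [mul_assoc]

theorem amgm (h η : ℝ≥0∞) (h0 : η ≠ 0) (h1 : η ≠ ⊤) : h ≤ η * h ^ 2 + η⁻¹ := by
  rcases le_total h η⁻¹ with h2 | h2
  · exact h2.trans le_add_self
  · refine le_trans ?_ le_self_add
    calc h = (η * η⁻¹) * h := by rw [ENNReal.mul_inv_cancel h0 h1, one_mul]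
      _ ≤ (η * h) * h := by gcongr
      _ = _ := by ring

theorem meas_bound_aux (ν : Measure ℝ) [IsFiniteMeasure ν] {K : ℝ≥0∞}
    (hK : ∀ r : ℝ, 0 < r → ν.prod ν {p | |p.1 - p.2| ≤ r} ≤ ENNReal.ofReal r * K)
    {U : Set ℝ} (hU : MeasurableSet U) {δ : ℝ≥0∞} (h0 : δ ≠ 0) (h1 : δ ≠ ⊤) {r : ℝ} (hr : 0 < r) :
    ν {y | Metric.ball y r ⊆ U} ≤ δ * K + δ⁻¹ * volume U := by
  set ρ := ENNReal.ofReal (2 * r) with hρ
  have hρ0 : ρ ≠ 0 := by simp [hρ, hr]
  have hρ1 : ρ ≠ ⊤ := ENNReal.ofReal_ne_top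
  have hcl : MeasurableSet {y : ℝ | Metric.ball y r ⊆ U} := by
    have : {y : ℝ | Metric.ball y r ⊆ U} = ⋂ z ∈ Uᶜ, {y | r ≤ dist z y} := by
      ext y
      simp only [Set.mem_ofPred_eq, Set.mem_iInter, Set.mem_compl_iff]
      constructor
      · intro h z hz
        by_contra hc
        exact hz (h (Metric.mem_ball.2 (not_le.1 hc)))
      · intro h z hz
        by_contra hc
        exact absurd (Metric.mem_ball.1 hz) (not_lt.2 (h z hc))
    rw [this]
    exact (isClosed_biInter fun z _ => isClosed_le continuous_const (by fun_prop)).measurableSet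
  have hO : MeasurableSet {p : ℝ × ℝ | dist p.1 p.2 < r} :=
    measurableSet_lt (by fun_prop) measurable_const
  have hm : Measurable fun z : ℝ => ν (Metric.ball z r) := by
    have := measurable_measure_prodMk_left (ν := ν) hO
    simpa [Metric.ball, dist_comm] using this
  have a1 : ρ * ν {y | Metric.ball y r ⊆ U} ≤ ∫⁻ z in U, ν (Metric.ball z r) := by
    have b1 : ∫⁻ z in U, ν (Metric.ball z r) =
        (volume.restrict U).prod ν {p : ℝ × ℝ | dist p.1 p.2 < r} := by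
      rw [Measure.prod_apply hO]
      simp [Metric.ball, dist_comm]
    rw [b1, Measure.prod_apply_symm hO, ← setLIntegral_const]
    refine le_trans (setLIntegral_mono' hcl fun y hy => ?_) (setLIntegral_le_lintegral _ _)
    have : (fun x => (x, y)) ⁻¹' {p : ℝ × ℝ | dist p.1 p.2 < r} = Metric.ball y r := rfl
    rw [this, Measure.restrict_apply Metric.isOpen_ball.measurableSet, Set.inter_eq_left.2 hy,
      Real.volume_ball]
  have a2 : ∫⁻ z, ν (Metric.ball z r) ^ 2 ≤ ρ * (ρ * K) := by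
    have hT : MeasurableSet {q : ℝ × (ℝ × ℝ) | dist q.2.1 q.1 < r ∧ dist q.2.2 q.1 < r} := by
      have c1 : MeasurableSet {q : ℝ × (ℝ × ℝ) | dist q.2.1 q.1 < r} :=
        measurableSet_lt (by fun_prop) measurable_const
      have c2 : MeasurableSet {q : ℝ × (ℝ × ℝ) | dist q.2.2 q.1 < r} :=
        measurableSet_lt (by fun_prop) measurable_const
      exact c1.inter c2
    have b1 : ∫⁻ z, ν (Metric.ball z r) ^ 2 =
        (volume : Measure ℝ).prod (ν.prod ν)
          {q : ℝ × (ℝ × ℝ) | dist q.2.1 q.1 < r ∧ dist q.2.2 q.1 < r} := by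
      rw [Measure.prod_apply hT]
      congr 1
      funext z
      rw [sq, ← Measure.prod_prod]
      rfl
    have hS : MeasurableSet {p : ℝ × ℝ | |p.1 - p.2| ≤ 2 * r} :=
      measurableSet_le (by fun_prop) measurable_const
    rw [b1, Measure.prod_apply_symm hT]
    refine le_trans (lintegral_mono (g := {p : ℝ × ℝ | |p.1 - p.2| ≤ 2 * r}.indicator fun _ => ρ)
      fun p => ?_) ?_
    · by_cases hp : p ∈ {p : ℝ × ℝ | |p.1 - p.2| ≤ 2 * r}
      · rw [Set.indicator_of_mem hp, hρ, ← Real.volume_ball p.1]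
        exact measure_mono fun z hz => by simpa [dist_comm] using hz.1
      · rw [Set.indicator_of_notMem hp]
        refine le_of_eq (measure_mono_null (fun z hz => hp ?_) measure_empty)
        have := dist_triangle_right p.1 p.2 z
        rw [Real.dist_eq] at this
        have h1 : dist p.1 z < r := hz.1
        have h2 : dist p.2 z < r := hz.2
        show |p.1 - p.2| ≤ 2 * r
        linarith
    · rw [lintegral_indicator hS, setLIntegral_const]
      gcongr
      exact hK _ (by positivity)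
  have hη0 : δ / ρ ≠ 0 := ENNReal.div_ne_zero.2 ⟨h0, hρ1⟩
  have hη1 : δ / ρ ≠ ⊤ := ENNReal.div_ne_top h1 hρ0
  have a3 : ∫⁻ z in U, ν (Metric.ball z r) ≤ δ / ρ * (ρ * (ρ * K)) + (δ / ρ)⁻¹ * volume U := by
    refine (lintegral_mono fun z => amgm _ _ hη0 hη1).trans ?_
    rw [lintegral_add_right _ measurable_const, lintegral_const_mul _ (hm.pow_const 2),
      setLIntegral_const]
    gcongr
    exact (setLIntegral_le_lintegral _ _).trans a2
  rw [← ENNReal.mul_le_mul_iff_right hρ0 hρ1]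
  refine (a1.trans a3).trans (le_of_eq ?_)
  rw [ENNReal.inv_div (Or.inr h1) (Or.inr h0), ← mul_assoc (δ / ρ), ENNReal.div_mul_cancel hρ0 hρ1,
    div_eq_mul_inv]
  ring

theorem meas_bound (ν : Measure ℝ) [IsFiniteMeasure ν] (A : Set ℝ) {δ : ℝ≥0∞} (h0 : δ ≠ 0)
    (h1 : δ ≠ ⊤) : ν A ≤ δ * (2 * ∫⁻ ξ, ‖charFun ν ξ‖ₑ ^ 2) + δ⁻¹ * volume A := by
  set K := 2 * ∫⁻ ξ, ‖charFun ν ξ‖ₑ ^ 2 with hKdef
  have hK : ∀ r : ℝ, 0 < r → ν.prod ν {p | |p.1 - p.2| ≤ r} ≤ ENNReal.ofReal r * K := by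
    intro r hr
    refine (pair_bound ν hr).trans (le_of_eq ?_)
    rw [hKdef]; ring
  have hopen : ∀ U : Set ℝ, IsOpen U → ν U ≤ δ * K + δ⁻¹ * volume U := by
    intro U hU
    have e : U = ⋃ n : ℕ, {y | Metric.ball y (1 / ((n : ℝ) + 1)) ⊆ U} := by
      ext y
      simp only [Set.mem_iUnion, Set.mem_ofPred_eq]
      constructor
      · intro hy
        obtain ⟨ε, hε, h⟩ := Metric.isOpen_iff.1 hU y hy
        obtain ⟨n, hn⟩ := exists_nat_one_div_lt hε
        exact ⟨n, (Metric.ball_subset_ball hn.le).trans h⟩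
      · rintro ⟨n, h⟩
        exact h (Metric.mem_ball_self (by positivity))
    have hmono : Monotone fun n : ℕ => {y : ℝ | Metric.ball y (1 / ((n : ℝ) + 1)) ⊆ U} := by
      intro n m hnm y hy
      exact (Metric.ball_subset_ball (Nat.one_div_le_one_div hnm)).trans hy
    calc ν U = ν (⋃ n : ℕ, {y | Metric.ball y (1 / ((n : ℝ) + 1)) ⊆ U}) := by rw [← e]
      _ = ⨆ n : ℕ, ν {y | Metric.ball y (1 / ((n : ℝ) + 1)) ⊆ U} := hmono.measure_iUnion
      _ ≤ _ := iSup_le fun n => meas_bound_aux ν hK hU.measurableSet h0 h1 (by positivity)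
  refine ENNReal.le_of_forall_pos_le_add fun ε hε _ => ?_
  obtain ⟨U, hAU, hU, hle⟩ := Set.exists_isOpen_le_add A (volume : Measure ℝ) (ε := δ * ε)
    (mul_ne_zero h0 (by simpa using hε.ne'))
  refine (measure_mono hAU).trans ((hopen U hU).trans ?_)
  rw [add_assoc]
  gcongr
  refine (mul_le_mul_right hle _).trans (le_of_eq ?_)
  rw [mul_add, ← mul_assoc, ENNReal.inv_mul_cancel h0 h1, one_mul]

end Pool.Agent.H135Z.Wei
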