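import Pool.Agent.H135Z.Wei.Expect
import Pool.Agent.H135Z.Wei.Defs

set_option autoImplicit false
set_option maxHeartbeats 400000

namespace Pool.Agent.H135Z.Wei

open MeasureTheory ProbabilityTheory Filter Topology
open scoped ENNReal NNReal

theorem norm_def (g : Lip) : ‖g‖ = supN g + lipN g := rfl

noncomputable instance : NormedSpace ℝ Lip where
  norm_smul_le c g := by
    have e : ∀ x, (c • g).fn x = c * g.fn x := fun _ => rfl
    have h1 : supN (c • g) ≤ |c| * supN g :=
      Real.iSup_le (fun x => by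
        rw [e, abs_mul]
        exact mul_le_mul_of_nonneg_left (le_ciSup (bdd_sup g) x) (abs_nonneg c))
        (mul_nonneg (abs_nonneg c) (supN_nonneg g))
    have h2 : lipN (c • g) ≤ |c| * lipN g :=
      Real.iSup_le (fun p => by
        rw [e, e, ← mul_sub, abs_mul, mul_div_assoc]
        exact mul_le_mul_of_nonneg_left (le_ciSup (bdd_lip g) p) (abs_nonneg c))
        (mul_nonneg (abs_nonneg c) (lipN_nonneg g))
    rw [norm_def, norm_def, Real.norm_eq_abs, mul_add]
    exact add_le_add h1 h2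

/-- lift to the real line -/
def rf (g : Lip) (x : ℝ) : ℝ := g.fn (x : UnitAddCircle)

theorem rf_le (g : Lip) (x : ℝ) : |rf g x| ≤ ‖g‖ :=
  (le_ciSup (bdd_sup g) (x : UnitAddCircle)).trans (le_add_of_nonneg_right (lipN_nonneg g))

theorem rf_lip (g : Lip) (x y : ℝ) : |rf g x - rf g y| ≤ ‖g‖ * |x - y| := by
  by_cases h : (x : UnitAddCircle) = y
  · simp only [rf, h, sub_self, abs_zero]; positivity
  have h1 := le_ciSup (bdd_lip g) ⟨((x : UnitAddCircle), (y : UnitAddCircle)), h⟩
  rw [div_le_iff₀ (dist_pos.2 h)] at h1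
  refine h1.trans (mul_le_mul (le_add_of_nonneg_left (supN_nonneg g)) ?_ dist_nonneg
    (norm_nonneg _))
  rw [dist_eq_norm, ← AddCircle.coe_sub]
  exact cd_le_abs _

theorem rf_cont (g : Lip) : Continuous (rf g) :=
  (LipschitzWith.of_dist_le_mul (K := ‖g‖₊) fun x y => rf_lip g x y).continuous

theorem rf_per (g : Lip) (x : ℝ) (n : ℕ) : rf g (x + n) = rf g x := by
  have : ((n : ℝ) : UnitAddCircle) = 0 := by
    rw [AddCircle.coe_eq_zero_iff]
    exact ⟨n, by simp⟩
  simp only [rf, AddCircle.coe_add, this, add_zero]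

theorem weier_coe (α : ℝ) {b : ℕ} (g : Lip) (x : ℝ) :
    weier α b g x = Wr ((b : ℝ) ^ (-α)) b (rf g) x := by
  unfold weier Wr
  refine tsum_congr fun k => ?_
  rw [← Real.rpow_natCast ((b : ℝ) ^ (-α)), ← Real.rpow_mul (Nat.cast_nonneg b), neg_mul, rf,
    ← AddCircle.coe_nsmul, nsmul_eq_mul]
  push_cast
  rfl

/-- tent functions as elements of `Lip` -/
noncomputable def tentL (D a : ℕ) : Lip :=
  ⟨fun z => max 0 (1 - D * ‖z - ((a / D : ℝ) : UnitAddCircle)‖), D, by
    refine LipschitzWith.of_dist_le_mul fun x y => ?_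
    refine (abs_max_sub_max_le_max _ _ _ _).trans (max_le ?_ ?_)
    · simp only [sub_self, abs_zero]; positivity
    · have h := abs_norm_sub_norm_le (y - ((a / D : ℝ) : UnitAddCircle))
        (x - ((a / D : ℝ) : UnitAddCircle))
      rw [sub_sub_sub_cancel_right, ← dist_eq_norm y x, dist_comm] at h
      rw [sub_sub_sub_cancel_left, ← mul_sub, abs_mul, Nat.abs_cast]
      exact mul_le_mul_of_nonneg_left h (Nat.cast_nonneg D)⟩

theorem rf_tentL (D a : ℕ) : rf (tentL D a) = tent D a := by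
  funext x
  simp only [rf, tent, cd, AddCircle.coe_sub]
  rfl

/-- the probe -/
noncomputable def probe (D : ℕ) (τ : Fin D → ℝ) : Lip := ∑ a : Fin D, τ a • tentL D a

theorem probe_cont (D : ℕ) : Continuous (probe D) := by
  unfold probe
  fun_prop

/-- evaluation as a linear map -/
noncomputable def WL {l : ℝ} (hl0 : 0 < l) (hl : l < 1) (b : ℕ) (x : ℝ) : Lip →ₗ[ℝ] ℝ where
  toFun g := Wr l b (rf g) x
  map_add' g h := by
    unfold Wr
    rw [← (summable_W hl0.le hl b (rf_le g) x).tsum_add (summable_W hl0.le hl b (rf_le h) x)]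
    exact tsum_congr fun k => mul_add _ _ _
  map_smul' c g := by
    unfold Wr
    rw [RingHom.id_apply, smul_eq_mul, ← tsum_mul_left]
    exact tsum_congr fun k => mul_left_comm _ _ _

theorem W_probe {l : ℝ} (hl0 : 0 < l) (hl : l < 1) (b D : ℕ) (g : Lip) (τ : Fin D → ℝ) :
    Wr l b (rf (g + probe D τ)) =
      fun x => Wr l b (rf g) x + ∑ a : Fin D, τ a * Wr l b (tent D a) x := by
  funext x
  have h : WL hl0 hl b x (g + probe D τ) =
      WL hl0 hl b x g + ∑ a : Fin D, τ a * WL hl0 hl b x (tentL D a) := by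
    simp only [probe, map_add, map_sum, map_smul, smul_eq_mul]
  simp only [← rf_tentL]
  exact h

theorem meas_W {l : ℝ} (hl0 : 0 < l) (hl : l < 1) (b : ℕ) :
    Measurable fun q : Lip × ℝ => Wr l b (rf q.1) q.2 := by
  have h := measurable_uncurry_of_continuous_of_measurable (u := fun (x : ℝ) (g : Lip) =>
    Wr l b (rf g) x) (fun g => continuous_W hl0.le hl b (rf_le g) (rf_cont g)) (fun x => by
      refine (AddMonoidHomClass.continuous_of_bound (WL hl0 hl b x) (1 - l)⁻¹ fun g => ?_).measurable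
      refine tsum_of_norm_bounded ((hasSum_geometric_of_lt_one hl0.le hl).mul_right ‖g‖) fun k => ?_
      rw [Real.norm_eq_abs, abs_mul, abs_of_pos (pow_pos hl0 k)]
      exact mul_le_mul_of_nonneg_left (rf_le g _) (pow_pos hl0 k).le)
  exact h.comp measurable_swap

theorem dimH_image_iso {S : Set ℝ} (h : ∀ x ∈ S, ∀ y ∈ S, |x - y| ≤ 1 / 2) :
    dimH (((↑) : ℝ → UnitAddCircle) '' S) = dimH S := by
  have h1 : Isometry fun x : S => ((x : ℝ) : UnitAddCircle) := by
    refine Isometry.of_dist_eq fun x y => ?_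
    rw [dist_eq_norm, ← AddCircle.coe_sub, Subtype.dist_eq, Real.dist_eq,
      AddCircle.norm_coe_eq_abs_iff _ one_ne_zero]
    simpa using h x x.2 y y.2
  have h2 := h1.dimH_image Set.univ
  have h3 := (isometry_subtype_coe (s := S)).dimH_image Set.univ
  rw [Set.image_univ] at h2 h3
  rw [Subtype.range_coe] at h3
  rw [h3, ← h2, Set.image_eq_range]

theorem dimH_coe {S : Set ℝ} (h : S ⊆ Set.Ico 0 1) :
    dimH (((↑) : ℝ → UnitAddCircle) '' S) = dimH S := by
  have e : S = (S ∩ Set.Iio (1 / 2)) ∪ (S ∩ Set.Ici (1 / 2)) := by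
    rw [← Set.inter_union_distrib_left, Set.Iio_union_Ici, Set.inter_univ]
  rw [e, Set.image_union, dimH_union, dimH_union, dimH_image_iso, dimH_image_iso]
  · intro x hx y hy
    have := (h hx.1).2
    have := (h hy.1).2
    have : 1 / 2 ≤ x := hx.2
    have : 1 / 2 ≤ y := hy.2
    rw [abs_le]; constructor <;> linarith
  · intro x hx y hy
    have := (h hx.1).1
    have := (h hy.1).1
    have : x < 1 / 2 := hx.2
    have : y < 1 / 2 := hy.2
    rw [abs_le]; constructor <;> linarith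

theorem exists_rep (z : UnitAddCircle) : ∃ x ∈ Set.Ico (0 : ℝ) 1, (x : UnitAddCircle) = z := by
  have := AddCircle.eq_coe_Ico z
  simpa using this

theorem main (b : ℕ) (hb : 2 ≤ b) (α : ℝ) (h0 : 0 < α) (h1 : α < 1) :
    Prevalent {g | ∀ᵐ y ∂(volume : Measure ℝ), y ∈ Set.range (weier α b g) →
      dimH (weier α b g ⁻¹' {y}) = ENNReal.ofReal (1 - α)} := by
  have hb1 : (1 : ℝ) < b := by exact_mod_cast hb
  have hb0 : (0 : ℝ) < b := by linarith
  have hl0 : 0 < (b : ℝ) ^ (-α) := by positivity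
  have hl : (b : ℝ) ^ (-α) < 1 := Real.rpow_lt_one_of_one_lt_of_neg hb1 (by linarith)
  have hlb : 1 < (b : ℝ) ^ (-α) * b := by
    have e : (b : ℝ) ^ (-α) * b = (b : ℝ) ^ (1 - α) := by
      rw [sub_eq_neg_add, Real.rpow_add hb0, Real.rpow_one]
    rw [e]
    exact Real.one_lt_rpow hb1 (by linarith)
  obtain ⟨D, Λ, j, k, hΛ, hj, hE⟩ := expect_psi hl0 hl hlb
  have hPm := meas_Psi (Wp := fun g : Lip => Wr ((b : ℝ) ^ (-α)) b (rf g)) (meas_W hl0 hl b)
    ((b : ℝ) ^ (-α)) b Λ j k
  have hBm : MeasurableSet {g : Lip | Psi ((b : ℝ) ^ (-α)) b Λ j k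
      (Wr ((b : ℝ) ^ (-α)) b (rf g)) = ⊤} := hPm (measurableSet_singleton ⊤)
  have hpm := (probe_cont D).measurable
  refine ⟨(gm D).map (probe D), _, hBm, fun g hg => ?_, ⟨probe D '' Metric.closedBall 0 1,
    (isCompact_closedBall _ _).image (probe_cont D), ?_, measure_lt_top _ _⟩, fun x => ?_⟩
  · by_contra hP
    apply hg
    obtain ⟨K, hK, hU⟩ := unif_of_psi hl0 hl hlb (rf_le g) (norm_nonneg g) (rf_lip g) (rf_cont g)
      (rf_per g) hΛ hj hP
    have hH : 0 < ‖g‖ / ((b : ℝ) ^ (-α) * b - 1) + 2 * ‖g‖ / (1 - (b : ℝ) ^ (-α)) + 1 := by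
      have : 0 < (b : ℝ) ^ (-α) * b - 1 := by linarith
      have : 0 < 1 - (b : ℝ) ^ (-α) := by linarith
      positivity
    have hd := determ h0 h1 hb (continuous_W hl0.le hl b (rf_le g) (rf_cont g)).measurable hK hU hH
      (fun n x y hxy => (holder_W hl0 hl hlb (rf_le g) (norm_nonneg g) (rf_lip g) n hxy).trans
        (mul_le_mul_of_nonneg_right (by linarith) (by positivity)))
    filter_upwards [hd] with y hy
    rintro ⟨z, hz⟩
    obtain ⟨x, hx, rfl⟩ := exists_rep z
    rw [← hy ⟨x, hx, by rw [← weier_coe, hz]⟩, ← dimH_coe Set.inter_subset_right]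
    congr 1
    ext w
    constructor
    · intro hw
      obtain ⟨v, hv, rfl⟩ := exists_rep w
      exact ⟨v, ⟨by rw [Set.mem_preimage, ← weier_coe]; exact hw, hv⟩, rfl⟩
    · rintro ⟨v, hv, rfl⟩
      rw [Set.mem_preimage, weier_coe]
      exact hv.1
  · refine lt_of_lt_of_le ?_ (Measure.le_map_apply_image hpm.aemeasurable _)
    haveI : (gaussianReal 0 1).IsOpenPosMeasure :=
      (gaussianReal_absolutelyContinuous' 0 one_ne_zero).isOpenPosMeasure
    haveI : (gm D).IsOpenPosMeasure := by unfold gm; infer_instance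
    exact Metric.measure_closedBall_pos _ _ one_pos
  · rw [Set.image_add_left, Measure.map_apply hpm (measurable_const_add _ hBm)]
    have h2 := hE (Wr ((b : ℝ) ^ (-α)) b (rf (-x)))
      (continuous_W hl0.le hl b (rf_le _) (rf_cont _)).measurable
    simp_rw [← W_probe hl0 hl] at h2
    have h3 := ae_lt_top (hPm.comp (hpm.const_add (-x))) h2
    refine measure_mono_null (fun τ hτ => ?_) (ae_iff.1 h3)
    exact fun h => h.ne hτ

end Pool.Agent.H135Z.Wei
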