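import Pool.Agent.H135Z.Wei.Step
import Pool.Agent.H135Z.Wei.Four

set_option autoImplicit false
set_option maxHeartbeats 400000

namespace Pool.Agent.H135Z.Wei

open MeasureTheory ProbabilityTheory Complex Filter Topology
open scoped ENNReal NNReal

/-- Fourier transform of the occupation measure of a `b`-adic interval -/
noncomputable def Af (b : ℕ) (W : ℝ → ℝ) (n t : ℕ) (ξ : ℝ) : ℂ :=
  ∫ x in Ib b n t, cexp (((ξ * W x : ℝ) : ℂ) * I)

/-- rescaled form -/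
noncomputable def Bf (l : ℝ) (b : ℕ) (W : ℝ → ℝ) (n t : ℕ) (ξ : ℝ) : ℂ :=
  ∫ u in Set.Ico (0 : ℝ) 1, cexp (((ξ * (W ((t + u) / (b : ℝ) ^ n) / l ^ n) : ℝ) : ℂ) * I)

instance (b n t : ℕ) : IsFiniteMeasure (volume.restrict (Ib b n t)) :=
  isFiniteMeasure_restrict.2 (by simp [vol_Ib])

theorem Af_eq (b : ℕ) {W : ℝ → ℝ} (hW : Measurable W) (n t : ℕ) (ξ : ℝ) :
    charFun ((volume.restrict (Ib b n t)).map W) ξ = Af b W n t ξ := by
  rw [charFun_apply_real, integral_map hW.aemeasurable (by fun_prop), Af]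
  push_cast
  rfl

theorem Bf_eq {l : ℝ} {b : ℕ} (hb : 0 < b) (W : ℝ → ℝ) (n t : ℕ) (ξ : ℝ) :
    Bf l b W n t ξ = ((b : ℝ) ^ n) • Af b W n t ((l ^ n)⁻¹ * ξ) := by
  have h0 : (0 : ℝ) < (b : ℝ) ^ n := by positivity
  have h := intervalIntegral.integral_comp_add_div (a := 0) (b := 1)
    (fun x => cexp (((((l ^ n)⁻¹ * ξ) * W x : ℝ) : ℂ) * I)) h0.ne' ((t : ℝ) / (b : ℝ) ^ n)
  rw [intervalIntegral.integral_of_le zero_le_one, intervalIntegral.integral_of_le (by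
    gcongr; norm_num), ← integral_Ico_eq_integral_Ioc, ← integral_Ico_eq_integral_Ioc,
    zero_div, add_zero, ← add_div] at h
  rw [Bf, Af, Ib, ← h]
  congr 1
  funext u
  rw [← add_div]
  congr 3
  ring

theorem norm_Bf_le (l : ℝ) (b : ℕ) (W : ℝ → ℝ) (n t : ℕ) (ξ : ℝ) : ‖Bf l b W n t ξ‖ ≤ 1 := by
  refine (norm_integral_le_of_norm_le_const (C := 1) (ae_of_all _ fun u => ?_)).trans (by simp)
  rw [Complex.norm_exp_ofReal_mul_I]

theorem W_split {l : ℝ} (hl0 : 0 ≤ l) (hl : l < 1) (b : ℕ) {G : ℝ → ℝ} {M : ℝ}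
    (hM : ∀ x, |G x| ≤ M) (p : ℕ) (x : ℝ) :
    Wr l b G x = ∑ k ∈ Finset.range p, l ^ k * G ((b : ℝ) ^ k * x) +
      l ^ p * Wr l b G ((b : ℝ) ^ p * x) := by
  unfold Wr
  rw [← (summable_W hl0 hl b hM x).sum_add_tsum_nat_add p, ← tsum_mul_left]
  congr 1
  refine tsum_congr fun k => ?_
  rw [pow_add, pow_add, mul_assoc ((b : ℝ) ^ k)]
  ring

theorem W_per (l : ℝ) (b : ℕ) {G : ℝ → ℝ} (hper : ∀ (x : ℝ) (n : ℕ), G (x + n) = G x)
    (x : ℝ) (n : ℕ) : Wr l b G (x + n) = Wr l b G x := by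
  unfold Wr
  refine tsum_congr fun k => ?_
  rw [mul_add, ← hper ((b : ℝ) ^ k * x) (b ^ k * n)]
  push_cast
  rfl

theorem Bf_compare {l : ℝ} (hl0 : 0 < l) (hl : l < 1) {b : ℕ} (hlb : 1 < l * b) {G : ℝ → ℝ}
    {M L : ℝ} (hM : ∀ x, |G x| ≤ M) (hL0 : 0 ≤ L) (hL : ∀ x y, |G x - G y| ≤ L * |x - y|)
    (hG : Continuous G) (hper : ∀ (x : ℝ) (n : ℕ), G (x + n) = G x) (j p t : ℕ) (ξ : ℝ) :
    ‖Bf l b (Wr l b G) (j + p) t ξ‖ ≤
      ‖Bf l b (Wr l b G) j (t % b ^ j) ξ‖ + |ξ| * (L / (l * b - 1) / (l * b) ^ j) := by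
  have hb : (0 : ℝ) < b := by
    by_contra hc
    push Not at hc
    nlinarith
  have hW := continuous_W hl0.le hl b hM hG
  set R : ℝ → ℝ := fun u => (∑ k ∈ Finset.range p,
    l ^ k * G ((b : ℝ) ^ k * ((t + u) / (b : ℝ) ^ (j + p)))) / l ^ (j + p) with hR
  set F : ℝ → ℝ := fun u => Wr l b G (((t % b ^ j : ℕ) + u) / (b : ℝ) ^ j) / l ^ j with hF
  have e : ∀ u, Wr l b G ((t + u) / (b : ℝ) ^ (j + p)) / l ^ (j + p) = F u + R u := by
    intro u
    have e1 : (b : ℝ) ^ p * ((t + u) / (b : ℝ) ^ (j + p)) =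
        ((t % b ^ j : ℕ) + u) / (b : ℝ) ^ j + (t / b ^ j : ℕ) := by
      have : (t : ℝ) = ((t % b ^ j : ℕ) : ℝ) + (b : ℝ) ^ j * (t / b ^ j : ℕ) := by
        exact_mod_cast (Nat.mod_add_div t (b ^ j)).symm
      conv_lhs => rw [this, pow_add]
      field_simp
      ring
    rw [W_split hl0.le hl b hM p, e1, W_per l b hper]
    simp only [hF, hR, pow_add]
    field_simp
    ring
  have hRb : ∀ u ∈ Set.Ico (0 : ℝ) 1, |R u - R 0| ≤ L / (l * b - 1) / (l * b) ^ j := by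
    intro u hu
    simp only [hR]
    rw [← sub_div, ← Finset.sum_sub_distrib, abs_div, abs_of_pos (pow_pos hl0 _),
      div_le_iff₀ (pow_pos hl0 _)]
    refine (Finset.abs_sum_le_sum_abs _ _).trans ?_
    have : ∀ k ∈ Finset.range p, |l ^ k * G ((b : ℝ) ^ k * ((t + u) / (b : ℝ) ^ (j + p))) -
        l ^ k * G ((b : ℝ) ^ k * ((t + 0) / (b : ℝ) ^ (j + p)))| ≤
        L / (b : ℝ) ^ (j + p) * (l * b) ^ k := by
      intro k _
      rw [← mul_sub, abs_mul, abs_of_pos (pow_pos hl0 _)]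
      refine (mul_le_mul_of_nonneg_left (hL _ _) (pow_pos hl0 _).le).trans ?_
      have e2 : (b : ℝ) ^ k * ((t + u) / (b : ℝ) ^ (j + p)) -
          (b : ℝ) ^ k * ((t + 0) / (b : ℝ) ^ (j + p)) = (b : ℝ) ^ k / (b : ℝ) ^ (j + p) * u := by ring
      rw [e2, abs_of_nonneg (by have := hu.1; positivity)]
      calc l ^ k * (L * ((b : ℝ) ^ k / (b : ℝ) ^ (j + p) * u))
          ≤ l ^ k * (L * ((b : ℝ) ^ k / (b : ℝ) ^ (j + p) * 1)) := by gcongr; exact hu.2.le
        _ = _ := by rw [mul_pow]; ring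
    refine (Finset.sum_le_sum this).trans ?_
    rw [← Finset.mul_sum, geom_sum_eq hlb.ne']
    have h1 : 0 < l * b - 1 := by linarith
    calc L / (b : ℝ) ^ (j + p) * (((l * b) ^ p - 1) / (l * b - 1))
        ≤ L / (b : ℝ) ^ (j + p) * (((l * b) ^ p) / (l * b - 1)) := by gcongr; linarith
      _ = _ := by simp only [mul_pow, pow_add]; field_simp
  have hFm : Measurable F := by simp only [hF]; fun_prop
  have hRm : Measurable R := by simp only [hR]; fun_prop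
  have i1 := integrable_cexp (volume.restrict (Set.Ico (0 : ℝ) 1)) (f := fun u => ξ * (F u + R u))
    (by fun_prop)
  have i2 := integrable_cexp (volume.restrict (Set.Ico (0 : ℝ) 1)) (f := fun u => ξ * (F u + R 0))
    (by fun_prop)
  have e3 : ‖∫ u in Set.Ico (0 : ℝ) 1, cexp (((ξ * (F u + R 0) : ℝ) : ℂ) * I)‖ =
      ‖Bf l b (Wr l b G) j (t % b ^ j) ξ‖ := by
    have : ∀ u, cexp (((ξ * (F u + R 0) : ℝ) : ℂ) * I) =
        cexp (((ξ * F u : ℝ) : ℂ) * I) * cexp (((ξ * R 0 : ℝ) : ℂ) * I) := by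
      intro u; rw [← Complex.exp_add]; congr 1; push_cast; ring
    simp_rw [this]
    rw [integral_mul_const, norm_mul, Complex.norm_exp_ofReal_mul_I, mul_one]
    rfl
  rw [← e3, Bf]
  simp_rw [e]
  refine (norm_le_norm_add_norm_sub' _ _).trans (add_le_add le_rfl ?_)
  rw [← integral_sub i1 i2]
  refine (norm_setIntegral_le_of_norm_le_const (C := |ξ| * (L / (l * b - 1) / (l * b) ^ j))
    (by simp) fun u hu => ?_).trans (le_of_eq ?_)
  · have : cexp (((ξ * (F u + R u) : ℝ) : ℂ) * I) - cexp (((ξ * (F u + R 0) : ℝ) : ℂ) * I) =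
        cexp (((ξ * (F u + R 0) : ℝ) : ℂ) * I) * (cexp (I * ((ξ * (R u - R 0) : ℝ) : ℂ)) - 1) := by
      rw [mul_sub, ← Complex.exp_add, mul_one]; congr 2; push_cast; ring
    rw [this, norm_mul, Complex.norm_exp_ofReal_mul_I, one_mul]
    refine Real.norm_exp_I_mul_ofReal_sub_one_le.trans ?_
    rw [Real.norm_eq_abs, abs_mul]
    gcongr
    exact hRb u hu
  · simp

/-- signs -/
def sg (k : ℕ) (i : Fin k × Bool) : ℝ := if i.2 then 1 else -1

theorem abs_sg (k : ℕ) (i : Fin k × Bool) : |sg k i| = 1 := by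
  unfold sg; split_ifs <;> simp

theorem Af_pow (b : ℕ) {W : ℝ → ℝ} (hW : Measurable W) (n t k : ℕ) (ξ : ℝ) :
    ((‖Af b W n t ξ‖ ^ (2 * k) : ℝ) : ℂ) =
      ∫ x in cube b n (fun _ : Fin k × Bool => t), cexp (((ξ * ∑ i, sg k i * W (x i) : ℝ) : ℂ) * I) := by
  have e1 : ∀ x : Fin k × Bool → ℝ, cexp (((ξ * ∑ i, sg k i * W (x i) : ℝ) : ℂ) * I) =
      ∏ i, cexp ((((sg k i * ξ) * W (x i) : ℝ) : ℂ) * I) := by
    intro x
    rw [← Complex.exp_sum, ← Finset.sum_mul, ← Complex.ofReal_sum, Finset.mul_sum]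
    congr 3
    exact Finset.sum_congr rfl fun i _ => by ring
  simp_rw [e1]
  rw [cube, volume_pi, Measure.restrict_pi_pi,
    integral_fintype_prod_eq_prod (fun i x => cexp ((((sg k i * ξ) * W x : ℝ) : ℂ) * I)),
    Fintype.prod_prod_type]
  have e2 : ∀ i : Fin k, ∏ s : Bool, ∫ x in Ib b n t,
      cexp ((((sg k (i, s) * ξ) * W x : ℝ) : ℂ) * I) = ((‖Af b W n t ξ‖ ^ 2 : ℝ) : ℂ) := by
    intro i
    rw [Fintype.prod_bool]
    have : (∫ x in Ib b n t, cexp ((((sg k (i, true) * ξ) * W x : ℝ) : ℂ) * I)) = Af b W n t ξ := by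
      simp [sg, Af]
    rw [this]
    have : (∫ x in Ib b n t, cexp ((((sg k (i, false) * ξ) * W x : ℝ) : ℂ) * I)) =
        Af b W n t (-ξ) := by
      simp [sg, Af]
    rw [this, ← Af_eq b hW, ← Af_eq b hW, charFun_neg, Complex.mul_conj,
      Complex.normSq_eq_norm_sq]
  simp_rw [e2]
  rw [Finset.prod_const, Finset.card_univ, Fintype.card_fin, pow_mul]
  push_cast
  rfl

/-- the Gaussian probe measure -/
noncomputable def gm (D : ℕ) : Measure (Fin D → ℝ) := Measure.pi fun _ => gaussianReal 0 1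

instance (D : ℕ) : IsProbabilityMeasure (gm D) := by unfold gm; infer_instance

theorem swap_avg {Ω T : Type} [MeasurableSpace Ω] [MeasurableSpace T] (π : Measure Ω) [IsFiniteMeasure π] 
    (γ : Measure T) [IsFiniteMeasure γ] {Φ : T × Ω → ℝ} (hΦ : Measurable Φ)
    {N : T → ℝ} (hN0 : ∀ τ, 0 ≤ N τ)
    (hN : ∀ τ, (N τ : ℂ) = ∫ x, cexp ((Φ (τ, x) : ℂ) * I) ∂π) :
    ∫⁻ τ, ENNReal.ofReal (N τ) ∂γ ≤
      ∫⁻ x, ‖∫ τ, cexp ((Φ (τ, x) : ℂ) * I) ∂γ‖ₑ ∂π := by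
  have hint := integrable_cexp (γ.prod π) hΦ
  have iN : Integrable N γ := by
    have h1 : Integrable (fun τ => (N τ : ℂ)) γ := by
      have := hint.integral_prod_left
      exact this.congr (ae_of_all _ fun τ => (hN τ).symm)
    have h2 := h1.norm
    refine h2.congr (ae_of_all _ fun τ => ?_)
    simp [hN0 τ]
  rw [← ofReal_integral_eq_lintegral_ofReal iN (ae_of_all _ hN0)]
  have : ENNReal.ofReal (∫ τ, N τ ∂γ) ≤ ‖((∫ τ, N τ ∂γ : ℝ) : ℂ)‖ₑ := by
    rw [← ofReal_norm, Complex.norm_real]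
    exact ENNReal.ofReal_le_ofReal (Real.le_norm_self _)
  refine this.trans ?_
  rw [← integral_complex_ofReal]
  simp_rw [hN]
  rw [integral_integral_swap (f := fun τ x => cexp ((Φ (τ, x) : ℂ) * I)) hint]
  exact enorm_integral_le_lintegral_enorm _

theorem gauss_norm {Ω : Type} (D : ℕ) (θ : Ω → ℝ) (S : Fin D → Ω → ℝ) (x : Ω) :
    ‖∫ τ, cexp (((θ x + ∑ a, τ a * S a x : ℝ) : ℂ) * I) ∂(gm D)‖ =
      ∏ a : Fin D, Real.exp (-((S a x) ^ 2 / 2)) := by
  have : ∀ τ : Fin D → ℝ, cexp (((θ x + ∑ a, τ a * S a x : ℝ) : ℂ) * I) =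
      cexp ((θ x : ℂ) * I) * ∏ a : Fin D, cexp (((τ a * S a x : ℝ) : ℂ) * I) := by
    intro τ
    rw [← Complex.exp_sum, ← Complex.exp_add, ← Finset.sum_mul, ← add_mul, ← Complex.ofReal_sum,
      ← Complex.ofReal_add]
  simp_rw [this]
  rw [integral_const_mul, norm_mul, Complex.norm_exp_ofReal_mul_I, one_mul, gm,
    integral_fintype_prod_eq_prod
      (fun (a : Fin D) (s : ℝ) => cexp (((s * S a x : ℝ) : ℂ) * I))]
  simp_rw [gauss_one]
  rw [← Complex.ofReal_prod, Complex.norm_real, Real.norm_of_nonneg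
    (Finset.prod_nonneg fun a _ => (Real.exp_pos _).le)]

theorem gauss_avg {Ω : Type} [MeasurableSpace Ω] (π : Measure Ω) [IsFiniteMeasure π] (D : ℕ)
    {θ : Ω → ℝ} (hθ : Measurable θ) {S : Fin D → Ω → ℝ} (hS : ∀ a, Measurable (S a))
    {N : (Fin D → ℝ) → ℝ} (hN0 : ∀ τ, 0 ≤ N τ)
    (hN : ∀ τ, (N τ : ℂ) = ∫ x, cexp (((θ x + ∑ a, τ a * S a x : ℝ) : ℂ) * I) ∂π) :
    ∫⁻ τ, ENNReal.ofReal (N τ) ∂(gm D) ≤
      ∫⁻ x, ENNReal.ofReal (∏ a : Fin D, Real.exp (-((S a x) ^ 2 / 2))) ∂π := by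
  have hΦm : Measurable fun q : (Fin D → ℝ) × Ω => θ q.2 + ∑ a, q.1 a * S a q.2 := by fun_prop
  refine (swap_avg π (gm D) hΦm hN0 hN).trans (lintegral_mono fun x => le_of_eq ?_)
  rw [← gauss_norm D θ S x, ofReal_norm]

theorem cont_WT {l : ℝ} (hl0 : 0 < l) (hl : l < 1) (b D a : ℕ) :
    Continuous (Wr l b (tent D a)) :=
  continuous_W hl0.le hl b (abs_tent_le D a) (by
    refine (LipschitzWith.of_dist_le_mul (K := D) fun x y => ?_).continuous
    exact tent_lip D a x y)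

theorem meas_Sf {l : ℝ} (hl0 : 0 < l) (hl : l < 1) (b D k a : ℕ) :
    Measurable (Sf l b D (sg k) a) := by
  unfold Sf
  exact Finset.measurable_sum _ fun i _ =>
    ((cont_WT hl0 hl b D a).measurable.comp (measurable_pi_apply i)).const_mul _

theorem prod_exp_le {l : ℝ} (b D k : ℕ) (ξ : ℝ) {ρ : ℝ} (hρ : 0 ≤ ρ) (x : Fin k × Bool → ℝ) :
    ENNReal.ofReal (∏ a : Fin D, Real.exp (-((ξ * Sf l b D (sg k) a x) ^ 2 / 2))) ≤
      (Good l b D (sg k) ρ).indicator 1 x + ENNReal.ofReal (Real.exp (-((ξ * ρ) ^ 2 / 2))) := by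
  have hle1 : ∀ s : ℝ, Real.exp (-(s ^ 2 / 2)) ≤ 1 := fun s => by
    rw [Real.exp_le_one_iff]; nlinarith [sq_nonneg s]
  by_cases hx : x ∈ Good l b D (sg k) ρ
  · refine le_trans ?_ le_self_add
    rw [Set.indicator_of_mem hx, Pi.one_apply, ENNReal.ofReal_le_one]
    exact Finset.prod_le_one (fun a _ => (Real.exp_pos _).le) fun a _ => hle1 _
  · refine le_trans (ENNReal.ofReal_le_ofReal ?_) le_add_self
    simp only [Good, Set.mem_ofPred_eq, not_forall, not_le] at hx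
    obtain ⟨a, ha, hx⟩ := hx
    rw [← Finset.mul_prod_erase _ _ (Finset.mem_univ (⟨a, ha⟩ : Fin D))]
    refine (mul_le_of_le_one_right (Real.exp_pos _).le
      (Finset.prod_le_one (fun a _ => (Real.exp_pos _).le) fun a _ => hle1 _)).trans ?_
    refine Real.exp_le_exp.2 ?_
    have : ρ ^ 2 ≤ (Sf l b D (sg k) a x) ^ 2 := by
      rw [← sq_abs (Sf l b D (sg k) a x)]; gcongr
    simp only [mul_pow]
    nlinarith [sq_nonneg ξ]

theorem moment {l : ℝ} (hl0 : 0 < l) (hl : l < 1) (b D : ℕ) {W : ℝ → ℝ} (hW : Measurable W)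
    (n t k : ℕ) (ξ : ℝ) {ρ : ℝ} (hρ : 0 ≤ ρ) :
    ∫⁻ τ, ‖Af b (fun x => W x + ∑ a : Fin D, τ a * Wr l b (tent D a) x) n t ξ‖ₑ ^ (2 * k) ∂(gm D) ≤
      volume (Good l b D (sg k) ρ ∩ cube b n fun _ => t) +
        ENNReal.ofReal (Real.exp (-((ξ * ρ) ^ 2 / 2))) *
          ENNReal.ofReal (1 / (b : ℝ) ^ n) ^ (2 * k) := by
  have hTm : ∀ a, Measurable (Wr l b (tent D a)) := fun a => (cont_WT hl0 hl b D a).measurable
  obtain ⟨Q, hQ⟩ : ∃ Q, Q = cube b n (fun _ : Fin k × Bool => t) := ⟨_, rfl⟩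
  have hQv : volume Q = ENNReal.ofReal (1 / (b : ℝ) ^ n) ^ (2 * k) := by
    rw [hQ, vol_cube]; simp [mul_comm]
  haveI : IsFiniteMeasure (volume.restrict Q) := isFiniteMeasure_restrict.2 (by
    rw [hQv]; exact ENNReal.pow_ne_top ENNReal.ofReal_ne_top)
  have hSm := meas_Sf hl0 hl b D k
  have e3 := gauss_avg (volume.restrict Q) D (θ := fun x => ξ * ∑ i, sg k i * W (x i))
    ((Finset.measurable_sum _ fun i _ =>
      (hW.comp (measurable_pi_apply i)).const_mul _).const_mul _)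
    (S := fun a x => ξ * Sf l b D (sg k) a x) (fun a => (hSm a).const_mul _)
    (N := fun τ => ‖Af b (fun x => W x + ∑ a : Fin D, τ a * Wr l b (tent D a) x) n t ξ‖ ^ (2 * k))
    (fun τ => by positivity) (fun τ => by
      have hm : Measurable fun x => W x + ∑ a : Fin D, τ a * Wr l b (tent D a) x :=
        hW.add (Finset.measurable_sum _ fun a _ => (hTm a).const_mul _)
      rw [Af_pow b hm n t k ξ, ← hQ]
      congr 1
      funext x
      congr 3
      simp only [Sf, mul_add, Finset.sum_add_distrib, Finset.mul_sum]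
      congr 1
      rw [Finset.sum_comm]
      exact Finset.sum_congr rfl fun a _ => Finset.sum_congr rfl fun i _ => by ring)
  have hGm : MeasurableSet (Good l b D (sg k) ρ) := by
    have : Good l b D (sg k) ρ = ⋂ a ∈ Set.Iio D, {x | |Sf l b D (sg k) a x| ≤ ρ} := by
      ext x; simp [Good]
    rw [this]
    exact MeasurableSet.biInter (Set.to_countable _) fun a _ =>
      measurableSet_le (continuous_abs.measurable.comp (hSm a)) measurable_const
  simp_rw [ENNReal.ofReal_pow (norm_nonneg _), ofReal_norm] at e3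
  refine e3.trans ((lintegral_mono fun x => prod_exp_le b D k ξ hρ x).trans (le_of_eq ?_))
  rw [lintegral_add_right _ measurable_const, lintegral_indicator_one hGm,
    Measure.restrict_apply hGm, setLIntegral_const, hQv, hQ]

end Pool.Agent.H135Z.Wei
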