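import Pool.Agent.H135Z.Wei.Moment
import Pool.Agent.H135Z.Wei.Determ2

set_option autoImplicit false
set_option maxHeartbeats 400000

namespace Pool.Agent.H135Z.Wei

open MeasureTheory ProbabilityTheory Complex Filter Topology
open scoped ENNReal NNReal

/-- frequency shell -/
def shell (Λ : ℝ) (c : ℕ) : Set ℝ := {ξ | Λ ^ c ≤ |ξ| ∧ |ξ| ≤ Λ ^ (c + 1)}

theorem meas_shell (Λ : ℝ) (c : ℕ) : MeasurableSet (shell Λ c) := by
  have c1 : MeasurableSet {ξ : ℝ | Λ ^ c ≤ |ξ|} := measurableSet_le measurable_const (by fun_prop)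
  have c2 : MeasurableSet {ξ : ℝ | |ξ| ≤ Λ ^ (c + 1)} :=
    measurableSet_le (by fun_prop) measurable_const
  exact c1.inter c2

theorem vol_shell (Λ : ℝ) (c : ℕ) : volume (shell Λ c) ≤ ENNReal.ofReal (2 * Λ ^ (c + 1)) := by
  have : shell Λ c ⊆ Set.Icc (-Λ ^ (c + 1)) (Λ ^ (c + 1)) := fun ξ h => abs_le.1 h.2
  refine (measure_mono this).trans (le_of_eq ?_)
  rw [Real.volume_Icc]; congr 1; ring

/-- one term of the functional -/
noncomputable def term (l : ℝ) (b : ℕ) (Λ : ℝ) (k : ℕ) (W : ℝ → ℝ) (c n t : ℕ) : ℝ≥0∞ :=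
  ∫⁻ ξ in shell Λ c, ENNReal.ofReal ((2 * Λ) ^ (c * k)) * ‖Bf l b W n t ξ‖ₑ ^ (2 * (k + 1))

/-- the functional whose finiteness is prevalent -/
noncomputable def Psi (l : ℝ) (b : ℕ) (Λ : ℝ) (j k : ℕ) (W : ℝ → ℝ) : ℝ≥0∞ :=
  ∑' c, ∑ n ∈ Finset.range (c * j + 1), ∑ t ∈ Finset.range (b ^ n), term l b Λ k W c n t

theorem meas_Bf {T : Type} [MeasurableSpace T] {Wp : T → ℝ → ℝ}
    (h : Measurable fun q : T × ℝ => Wp q.1 q.2) (l : ℝ) (b n t : ℕ) :
    Measurable fun q : T × ℝ => Bf l b (Wp q.1) n t q.2 := by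
  have h1 : Measurable fun q : (T × ℝ) × ℝ => Wp q.1.1 ((t + q.2) / (b : ℝ) ^ n) :=
    h.comp (f := fun q : (T × ℝ) × ℝ => (q.1.1, (t + q.2) / (b : ℝ) ^ n)) (by fun_prop)
  have h2 : Measurable fun q : (T × ℝ) × ℝ =>
      cexp (((q.1.2 * (Wp q.1.1 ((t + q.2) / (b : ℝ) ^ n) / l ^ n) : ℝ) : ℂ) * I) := by
    fun_prop
  exact (h2.stronglyMeasurable.integral_prod_right'
    (ν := volume.restrict (Set.Ico (0 : ℝ) 1))).measurable

theorem meas_term {T : Type} [MeasurableSpace T] {Wp : T → ℝ → ℝ}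
    (h : Measurable fun q : T × ℝ => Wp q.1 q.2) (l : ℝ) (b : ℕ) (Λ : ℝ) (k c n t : ℕ) :
    Measurable fun τ => term l b Λ k (Wp τ) c n t :=
  (((meas_Bf h l b n t).enorm.pow_const _).const_mul _).lintegral_prod_right'

theorem meas_Psi {T : Type} [MeasurableSpace T] {Wp : T → ℝ → ℝ}
    (h : Measurable fun q : T × ℝ => Wp q.1 q.2) (l : ℝ) (b : ℕ) (Λ : ℝ) (j k : ℕ) :
    Measurable fun τ => Psi l b Λ j k (Wp τ) :=
  Measurable.tsum fun c => Finset.measurable_sum _ fun n _ => Finset.measurable_sum _ fun t _ =>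
    meas_term h l b Λ k c n t

theorem sq_bound {x x' e w : ℝ} (k : ℕ) (hx : 0 ≤ x) (h : x ≤ x' + e) (hw : 0 < w) :
    x ^ 2 ≤ (2 / w + 2 * e ^ 2) + 2 * (w ^ k * x' ^ (2 * (k + 1))) := by
  have h1 : x ^ 2 ≤ 2 * x' ^ 2 + 2 * e ^ 2 := by nlinarith [sq_nonneg (x' - e)]
  have h2 : x' ^ 2 ≤ 1 / w + w ^ k * x' ^ (2 * (k + 1)) := by
    have e1 : w ^ k * x' ^ (2 * (k + 1)) = (w * x' ^ 2) ^ k * x' ^ 2 := by ring
    rw [e1]
    rcases le_total (x' ^ 2) (1 / w) with h3 | h3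
    · have : 0 ≤ (w * x' ^ 2) ^ k * x' ^ 2 := by positivity
      linarith
    · rw [div_le_iff₀' hw] at h3
      have := one_le_pow₀ (n := k) h3
      have : 0 < 1 / w := by positivity
      nlinarith [sq_nonneg x']
  have : 2 / w = 2 * (1 / w) := by ring
  linarith

theorem unif_of_psi {l : ℝ} (hl0 : 0 < l) (hl : l < 1) {b : ℕ} (hlb : 1 < l * b) {G : ℝ → ℝ}
    {M L : ℝ} (hM : ∀ x, |G x| ≤ M) (hL0 : 0 ≤ L) (hL : ∀ x y, |G x - G y| ≤ L * |x - y|)
    (hG : Continuous G) (hper : ∀ (x : ℝ) (n : ℕ), G (x + n) = G x) {Λ : ℝ} (hΛ : 2 ≤ Λ) {j k : ℕ}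
    (hj : Λ ^ 2 ≤ (l * b) ^ j) (hP : Psi l b Λ j k (Wr l b G) ≠ ⊤) :
    ∃ K, K ≠ ⊤ ∧ Unif l b (Wr l b G) K := by
  have hb : (0 : ℝ) < b := by
    by_contra hc
    push Not at hc
    nlinarith
  have hbn : 0 < b := by exact_mod_cast hb
  have hW := (continuous_W hl0.le hl b hM hG).measurable
  obtain ⟨W, hWdef⟩ : ∃ W, W = Wr l b G := ⟨_, rfl⟩
  rw [← hWdef] at hP hW ⊢
  have hBm : ∀ n t, Measurable (Bf l b W n t) := fun n t =>
    (meas_Bf (T := Unit) (Wp := fun _ => W) (hW.comp measurable_snd) l b n t).comp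
      (measurable_prodMk_left (x := ()))
  set L' := L / (l * b - 1) with hL'
  have hL'0 : 0 ≤ L' := div_nonneg hL0 (by linarith)
  set C0 := 4 * Λ + 4 * Λ ^ 3 * L' ^ 2 with hC0
  have hΛ0 : 0 < Λ := by linarith
  have hshell : ∀ n t, t < b ^ n → ∀ c, ∫⁻ ξ in shell Λ c, ‖Bf l b W n t ξ‖ₑ ^ 2 ≤
      ENNReal.ofReal C0 * 2⁻¹ ^ c +
        2 * ∑ n ∈ Finset.range (c * j + 1), ∑ t ∈ Finset.range (b ^ n), term l b Λ k W c n t := by
    intro n t ht c
    obtain ⟨n', t', hn', ht', hc⟩ : ∃ n' t', n' < c * j + 1 ∧ t' < b ^ n' ∧ ∀ ξ ∈ shell Λ c,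
        ‖Bf l b W n t ξ‖ ≤ ‖Bf l b W n' t' ξ‖ + Λ * L' / Λ ^ c := by
      by_cases hn : n ≤ c * j
      · exact ⟨n, t, by omega, ht, fun ξ _ => le_add_of_nonneg_right (by positivity)⟩
      · obtain ⟨p, rfl⟩ := Nat.exists_eq_add_of_le (not_le.1 hn).le
        refine ⟨c * j, t % b ^ (c * j), by omega, Nat.mod_lt _ (by positivity), fun ξ hξ => ?_⟩
        rw [hWdef]
        refine (Bf_compare hl0 hl hlb hM hL0 hL hG hper _ p t ξ).trans (add_le_add le_rfl ?_)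
        have h1 : (Λ ^ 2) ^ c ≤ (l * b) ^ (c * j) := by
          rw [mul_comm c j, pow_mul]; gcongr
        calc |ξ| * (L' / (l * b) ^ (c * j)) ≤ Λ ^ (c + 1) * (L' / (Λ ^ 2) ^ c) := by
              gcongr; exact hξ.2
          _ = _ := by rw [← pow_mul, mul_comm 2 c, pow_mul, sq]; field_simp; ring
    have h1 : ∀ ξ ∈ shell Λ c, ‖Bf l b W n t ξ‖ₑ ^ 2 ≤
        ENNReal.ofReal (2 / (2 * Λ) ^ c + 2 * (Λ * L' / Λ ^ c) ^ 2) +
        2 * (ENNReal.ofReal ((2 * Λ) ^ (c * k)) * ‖Bf l b W n' t' ξ‖ₑ ^ (2 * (k + 1))) := by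
      intro ξ hξ
      have := sq_bound k (norm_nonneg _) (hc ξ hξ) (w := (2 * Λ) ^ c) (by positivity)
      rw [← ofReal_norm, ← ofReal_norm, ← ENNReal.ofReal_pow (norm_nonneg _),
        ← ENNReal.ofReal_pow (norm_nonneg _), ← ENNReal.ofReal_mul (by positivity),
        ← ENNReal.ofReal_ofNat 2, ← ENNReal.ofReal_mul (by positivity),
        ← ENNReal.ofReal_add (by positivity) (by positivity), pow_mul (2 * Λ)]
      exact ENNReal.ofReal_le_ofReal this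
    refine (setLIntegral_mono' (meas_shell Λ c) h1).trans ?_
    rw [lintegral_add_left measurable_const, setLIntegral_const,
      lintegral_const_mul _ (((hBm n' t').enorm.pow_const _).const_mul _)]
    refine add_le_add ?_ (mul_le_mul_right ?_ _)
    · refine (mul_le_mul_right (vol_shell Λ c) _).trans ?_
      rw [← ENNReal.ofReal_mul (by positivity), ← ENNReal.ofReal_ofNat 2,
        ← ENNReal.ofReal_inv_of_pos (by norm_num), ← ENNReal.ofReal_pow (by norm_num),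
        ← ENNReal.ofReal_mul (by positivity)]
      refine ENNReal.ofReal_le_ofReal ?_
      have e1 : (2 / (2 * Λ) ^ c + 2 * (Λ * L' / Λ ^ c) ^ 2) * (2 * Λ ^ (c + 1)) =
          4 * Λ * 2⁻¹ ^ c + 4 * Λ ^ 3 * L' ^ 2 * (Λ ^ c)⁻¹ := by
        rw [mul_pow, inv_pow]; field_simp; ring
      have e2 : (Λ ^ c)⁻¹ ≤ 2⁻¹ ^ c := by
        rw [inv_pow]; gcongr
      rw [e1, hC0, add_mul]
      gcongr
    · refine le_trans ?_ (Finset.single_le_sum (f := fun n => ∑ t ∈ Finset.range (b ^ n),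
        term l b Λ k W c n t) (fun _ _ => bot_le) (Finset.mem_range.2 hn'))
      exact Finset.single_le_sum (f := fun t => term l b Λ k W c n' t) (fun _ _ => bot_le)
        (Finset.mem_range.2 ht')
  set K0 : ℝ≥0∞ := 2 + (ENNReal.ofReal C0 * 2 + 2 * Psi l b Λ j k W) with hK0
  have hK0t : K0 ≠ ⊤ := by
    rw [hK0]
    exact ENNReal.add_ne_top.2 ⟨by simp, ENNReal.add_ne_top.2
      ⟨ENNReal.mul_ne_top ENNReal.ofReal_ne_top (by simp), ENNReal.mul_ne_top (by simp) hP⟩⟩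
  have hB : ∀ n t, t < b ^ n → ∫⁻ ξ, ‖Bf l b W n t ξ‖ₑ ^ 2 ≤ K0 := by
    intro n t ht
    have hu : (Set.univ : Set ℝ) = Set.Icc (-1) 1 ∪ ⋃ c, shell Λ c := by
      refine (Set.eq_univ_of_forall fun ξ => ?_).symm
      rcases le_total |ξ| 1 with h | h
      · exact Or.inl (abs_le.1 h)
      · obtain ⟨c, h1, h2⟩ := exists_nat_pow_near h (by linarith : 1 < Λ)
        exact Or.inr (Set.mem_iUnion.2 ⟨c, h1, h2.le⟩)
    rw [← setLIntegral_univ, hu]
    refine (lintegral_union_le _ _ _).trans (add_le_add ?_ ((lintegral_iUnion_le _ _).trans ?_))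
    · refine (lintegral_mono (g := fun _ => 1) fun ξ => ?_).trans (le_of_eq ?_)
      · refine pow_le_one₀ bot_le ?_
        rw [← ofReal_norm, ENNReal.ofReal_le_one]
        exact norm_Bf_le _ _ _ _ _ _
      · simp [one_add_one_eq_two]
    · refine (ENNReal.tsum_le_tsum (hshell n t ht)).trans (le_of_eq ?_)
      rw [ENNReal.tsum_add, ENNReal.tsum_mul_left, ENNReal.tsum_mul_left, ENNReal.tsum_geometric,
        ENNReal.one_sub_inv_two, inv_inv, Psi]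
  refine ⟨2 * K0, ENNReal.mul_ne_top (by simp) hK0t, fun n t ht A hA δ h0 h1 => ?_⟩
  have := meas_bound ((volume.restrict (Ib b n t)).map W) A h0 h1
  rw [Measure.map_apply hW hA, Measure.restrict_apply (hW hA), Set.inter_comm] at this
  refine this.trans ?_
  rw [mul_assoc 2 K0]
  gcongr
  have hc : Measurable fun ξ => ‖charFun ((volume.restrict (Ib b n t)).map W) ξ‖ₑ ^ 2 :=
    continuous_charFun.measurable.enorm.pow_const _
  have h2 := lint_scale hc (a := (l ^ n)⁻¹) (by positivity)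
  have h3 : ∫⁻ ξ, ‖Bf l b W n t ξ‖ₑ ^ 2 = ENNReal.ofReal (((b : ℝ) ^ 2 * l) ^ n) *
      ∫⁻ ξ, ‖charFun ((volume.restrict (Ib b n t)).map W) ξ‖ₑ ^ 2 := by
    rw [mul_pow, ENNReal.ofReal_mul (by positivity), mul_assoc, ← inv_inv (l ^ n), ← h2,
      ← lintegral_const_mul' _ _ ENNReal.ofReal_ne_top]
    congr 1
    funext ξ
    rw [Bf_eq hbn, enorm_smul, mul_pow, Af_eq b hW, Real.enorm_of_nonneg
      (by positivity), ← ENNReal.ofReal_pow (by positivity), ← pow_mul, ← pow_mul, mul_comm 2 n]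
  have h4 := hB n t ht
  rw [h3] at h4
  rw [one_div, ENNReal.ofReal_inv_of_pos (by positivity), ← div_eq_mul_inv,
    ENNReal.le_div_iff_mul_le (Or.inl (ENNReal.ofReal_pos.2 (by positivity)).ne')
      (Or.inl ENNReal.ofReal_ne_top), mul_comm]
  exact h4

end Pool.Agent.H135Z.Wei
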