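import Pool.Agent.H135Z.Wei.Comb

set_option autoImplicit false
set_option linter.unusedSectionVars false

namespace Pool.Agent.H135Z.Wei

open MeasureTheory Finset

variable {ι : Type} [Fintype ι] [DecidableEq ι]

/-- signed sum of the probe Weierstrass functions -/
noncomputable def Sf (l : ℝ) (b D : ℕ) (ε : ι → ℝ) (a : ℕ) (x : ι → ℝ) : ℝ :=
  ∑ i, ε i * Wr l b (tent D a) (x i)

/-- tuples on which all signed sums are small -/
def Good (l : ℝ) (b D : ℕ) (ε : ι → ℝ) (ρ : ℝ) : Set (ι → ℝ) :=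
  {x | ∀ a < D, |Sf l b D ε a x| ≤ ρ}

theorem Sf_eq {l : ℝ} (hl0 : 0 < l) (hl : l < 1) (b D : ℕ) (ε : ι → ℝ) (a : ℕ) (x : ι → ℝ) :
    HasSum (fun k : ℕ => l ^ k * ∑ i, ε i * tent D a ((b : ℝ) ^ k * x i)) (Sf l b D ε a x) := by
  have h := hasSum_sum (s := univ) fun i (_ : i ∈ (univ : Finset ι)) =>
    ((summable_W hl0.le hl b (abs_tent_le D a) (x i)).hasSum.mul_left (ε i))
  have e : (fun k : ℕ => l ^ k * ∑ i, ε i * tent D a ((b : ℝ) ^ k * x i)) =
      fun k : ℕ => ∑ i, ε i * (l ^ k * tent D a ((b : ℝ) ^ k * x i)) := by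
    funext k
    rw [Finset.mul_sum]
    exact Finset.sum_congr rfl fun i _ => by ring
  rw [e]
  exact h

theorem step {l : ℝ} (hl0 : 0 < l) (hl : l < 1) {b D : ℕ} (hlb : 1 < l * b) (hD : 0 < D)
    {ε : ι → ℝ} (hε : ∀ i, |ε i| = 1) {ρ : ℝ} {k M L : ℕ} {x y : ι → ℝ}
    (hx : x ∈ Good l b D ε ρ) (hy : y ∈ Good l b D ε ρ)
    (hxy : ∀ i, |x i - y i| ≤ 1 / (b : ℝ) ^ k) (hρ : ρ ≤ l ^ k / 16)
    (hM : Fintype.card ι * D / (l * b) ^ M / (l * b - 1) ≤ 1 / 8)
    (hL : 2 * Fintype.card ι * l ^ (L + 1) / (1 - l) ≤ 1 / 8) (i : ι) :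
    ∃ i' k', k ≤ k' + M ∧ k' ≤ k + L ∧
      (cd ((b : ℝ) ^ k * x i - (b : ℝ) ^ k' * y i') < 2 / D ∨
        ((i' ≠ i ∨ k' ≠ k) ∧ cd ((b : ℝ) ^ k * x i - (b : ℝ) ^ k' * x i') < 2 / D)) := by
  have hb : (0 : ℝ) < b := by
    by_contra hc
    push Not at hc
    nlinarith
  have hD' : (0 : ℝ) < D := by exact_mod_cast hD
  obtain ⟨a, ha, hta⟩ := exists_tent hD ((b : ℝ) ^ k * x i)
  have hca := tent_ne_zero hD (x := (b : ℝ) ^ k * x i) (a := a) (by linarith)
  have key : ∀ z, tent D a z ≠ 0 → cd ((b : ℝ) ^ k * x i - z) < 2 / D := by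
    intro z hz
    have h1 := tent_ne_zero hD hz
    have h2 := cd_sub_le ((b : ℝ) ^ k * x i) z (a / D)
    have : (2 : ℝ) / D = 1 / D + 1 / D := by ring
    linarith
  by_contra hcon
  push Not at hcon
  have hy0 : ∀ i' k', k ≤ k' + M → k' ≤ k + L → tent D a ((b : ℝ) ^ k' * y i') = 0 := by
    intro i' k' h1 h2
    by_contra hc
    exact absurd (key _ hc) (not_lt.2 (hcon i' k' h1 h2).1)
  have hx0 : ∀ i' k', k ≤ k' + M → k' ≤ k + L → (i' ≠ i ∨ k' ≠ k) →
      tent D a ((b : ℝ) ^ k' * x i') = 0 := by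
    intro i' k' h1 h2 h3
    by_contra hc
    exact absurd (key _ hc) (not_lt.2 ((hcon i' k' h1 h2).2 h3))
  set P : ℝ := (Fintype.card ι : ℝ) with hP
  have hP0 : 0 ≤ P := Nat.cast_nonneg _
  set u : ℕ → ℝ := fun k' => l ^ k' * ∑ i, ε i * tent D a ((b : ℝ) ^ k' * x i) -
    l ^ k' * ∑ i, ε i * tent D a ((b : ℝ) ^ k' * y i) with hu
  have hs : HasSum u (Sf l b D ε a x - Sf l b D ε a y) :=
    (Sf_eq hl0 hl b D ε a x).sub (Sf_eq hl0 hl b D ε a y)
  have hu' : ∀ k', u k' = l ^ k' * ∑ i, ε i *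
      (tent D a ((b : ℝ) ^ k' * x i) - tent D a ((b : ℝ) ^ k' * y i)) := by
    intro k'
    simp only [hu, mul_sub, Finset.sum_sub_distrib]
  have hub : ∀ k' c, (∀ i, |tent D a ((b : ℝ) ^ k' * x i) - tent D a ((b : ℝ) ^ k' * y i)| ≤ c) →
      |u k'| ≤ l ^ k' * (P * c) := by
    intro k' c hc
    rw [hu', abs_mul, abs_of_pos (pow_pos hl0 _)]
    refine mul_le_mul_of_nonneg_left ((abs_sum_le_sum_abs _ _).trans ?_) (pow_pos hl0 _).le
    refine (Finset.sum_le_card_nsmul _ _ c fun i _ => ?_).trans (by simp [hP])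
    rw [abs_mul, hε, one_mul]; exact hc i
  have huk : l ^ k / 2 ≤ |u k| := by
    rw [hu', Finset.sum_eq_single i, hy0 i k (by omega) (by omega), sub_zero, abs_mul, abs_mul, hε,
      abs_of_pos (pow_pos hl0 _), abs_of_nonneg (tent_nonneg _ _ _)]
    · have := pow_pos hl0 k
      nlinarith
    · intro i' _ hi'
      rw [hy0 i' k (by omega) (by omega), hx0 i' k (by omega) (by omega) (Or.inl hi')]; ring
    · simp
  have hsplit := hs.summable.tsum_eq_add_tsum_ite k
  have hA : ∃ A : ℝ, 0 ≤ A ∧ A * (l * b) ^ (k - M) / (l * b - 1) ≤ l ^ k / 8 ∧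
      ∀ k', k' + M < k → A = P * D / (b : ℝ) ^ k := by
    by_cases hk : M ≤ k
    · refine ⟨P * D / (b : ℝ) ^ k, by positivity, ?_, fun _ _ => rfl⟩
      obtain ⟨j, rfl⟩ := Nat.exists_eq_add_of_le hk
      rw [Nat.add_sub_cancel_left]
      have e : P * D / (b : ℝ) ^ (M + j) * (l * b) ^ j / (l * b - 1) =
          l ^ (M + j) * (P * D / (l * b) ^ M / (l * b - 1)) := by
        simp only [mul_pow, pow_add]; field_simp
      rw [e]
      have := pow_pos hl0 (M + j)
      nlinarith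
    · refine ⟨0, le_rfl, ?_, fun k' h => by omega⟩
      have := pow_pos hl0 k
      simp only [zero_mul, zero_div]; linarith
  obtain ⟨A, hA0, hA1, hA2⟩ := hA
  have hrest := tsum_bound (u := fun k' => if k' = k then 0 else u k') (A := A) (B := 2 * P)
    hlb hl0.le hl hA0 (k - M) (k + L + 1) (fun k' => by
      have p1 : 0 ≤ (if k' < k - M then A * (l * b) ^ k' else 0) := by split_ifs <;> positivity
      have p2 : 0 ≤ (if k + L + 1 ≤ k' then 2 * P * l ^ k' else 0) := by split_ifs <;> positivity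
      by_cases h0 : k' = k
      · rw [if_pos h0, abs_zero]; exact add_nonneg p1 p2
      rw [if_neg h0]
      by_cases h1 : k' < k - M
      · refine le_trans ?_ (le_add_of_nonneg_right p2)
        rw [if_pos h1, hA2 k' (by omega)]
        refine (hub k' (D * ((b : ℝ) ^ k' * (1 / (b : ℝ) ^ k))) fun i => ?_).trans (le_of_eq ?_)
        · refine (tent_lip _ _ _ _).trans ?_
          rw [← mul_sub, abs_mul, abs_of_pos (pow_pos hb _)]
          gcongr
          exact hxy i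
        · rw [mul_pow]; ring
      by_cases h2 : k + L + 1 ≤ k'
      · refine le_trans ?_ (le_add_of_nonneg_left p1)
        rw [if_pos h2]
        refine (hub k' 2 fun i => ?_).trans (le_of_eq (by ring))
        refine (abs_sub _ _).trans ?_
        linarith [abs_tent_le D a ((b : ℝ) ^ k' * x i), abs_tent_le D a ((b : ℝ) ^ k' * y i)]
      · refine le_trans ?_ (add_nonneg p1 p2)
        refine (hub k' 0 fun i' => ?_).trans (le_of_eq (by ring))
        rw [hy0 i' k' (by omega) (by omega), hx0 i' k' (by omega) (by omega) (Or.inr h0)]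
        simp)
  have hB : 2 * P * l ^ (k + L + 1) / (1 - l) ≤ l ^ k / 8 := by
    have e : 2 * P * l ^ (k + L + 1) / (1 - l) = l ^ k * (2 * P * l ^ (L + 1) / (1 - l)) := by
      rw [add_assoc, pow_add]; ring
    rw [e]
    have := pow_pos hl0 k
    nlinarith
  rw [hs.tsum_eq] at hsplit
  have h1 := abs_le.1 (hx a ha)
  have h2 := abs_le.1 (hy a ha)
  have h3 := abs_le.1 (hrest.trans (add_le_add hA1 hB))
  have h4 := pow_pos hl0 k
  have h5 : |u k| < l ^ k / 2 := by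
    rw [abs_lt]; constructor <;> linarith
  linarith

/-- `b`-adic interval -/
def Ib (b k t : ℕ) : Set ℝ := Set.Ico ((t : ℝ) / (b : ℝ) ^ k) (((t : ℝ) + 1) / (b : ℝ) ^ k)

theorem mem_Ib {b : ℕ} (hb : 0 < b) {k t : ℕ} {x : ℝ} :
    x ∈ Ib b k t ↔ (t : ℝ) ≤ (b : ℝ) ^ k * x ∧ (b : ℝ) ^ k * x < t + 1 := by
  have : (0 : ℝ) < (b : ℝ) ^ k := by positivity
  rw [Ib, Set.mem_Ico, div_le_iff₀ this, lt_div_iff₀ this, mul_comm]

theorem vol_Ib {b : ℕ} (k t : ℕ) : volume (Ib b k t) = ENNReal.ofReal (1 / (b : ℝ) ^ k) := by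
  rw [Ib, Real.volume_Ico]; congr 1; ring

theorem meas_Ib (b k t : ℕ) : MeasurableSet (Ib b k t) := measurableSet_Ico

theorem dist_Ib {b : ℕ} (hb : 0 < b) {k t : ℕ} {x y : ℝ} (hx : x ∈ Ib b k t) (hy : y ∈ Ib b k t) :
    |x - y| ≤ 1 / (b : ℝ) ^ k := by
  have : (0 : ℝ) < (b : ℝ) ^ k := by positivity
  rw [mem_Ib hb] at hx hy
  rw [le_div_iff₀ this, ← abs_of_pos this, ← abs_mul, abs_le]
  constructor <;> nlinarith [hx.1, hx.2, hy.1, hy.2]

/-- `b`-adic cube -/
def cube (b k : ℕ) (τ : ι → ℕ) : Set (ι → ℝ) := Set.univ.pi fun i => Ib b k (τ i)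

theorem vol_cube (b k : ℕ) (τ : ι → ℕ) :
    volume (cube b k τ) = ENNReal.ofReal (1 / (b : ℝ) ^ k) ^ Fintype.card ι := by
  rw [cube, volume_pi_pi]
  simp [vol_Ib]

/-- the combinatorial constant -/
def Qc (P b M L : ℕ) : ℕ :=
  (P + 1) * (M + L + 1) * ((4 * (b ^ L + 3) + 1) * (2 * (b ^ L + 1) + 1))

theorem cube_step {l : ℝ} (hl0 : 0 < l) (hl : l < 1) {b m : ℕ} (hlb : 1 < l * b)
    {ε : ι → ℝ} (hε : ∀ i, |ε i| = 1) {ρ : ℝ} {k M L : ℕ} (hρ : ρ ≤ l ^ k / 16)
    (hM : Fintype.card ι * (b ^ (2 * m) : ℕ) / (l * b) ^ M / (l * b - 1) ≤ 1 / 8)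
    (hL : 2 * Fintype.card ι * l ^ (L + 1) / (1 - l) ≤ 1 / 8) (τ : ι → ℕ) :
    ∃ T : Finset (ι → ℕ),
      T.card ≤ (Qc (Fintype.card ι) b M L * (1 + 2 * Fintype.card ι) * b ^ m) ^ Fintype.card ι ∧
      ∀ x ∈ Good l b (b ^ (2 * m)) ε ρ ∩ cube b k τ, ∃ q ∈ T,
        x ∈ cube b (k + 2 * m) fun i => b ^ (2 * m) * τ i + q i := by
  have hb1 : (1 : ℝ) < b := by
    by_contra hc
    push Not at hc
    nlinarith
  have hb2 : 2 ≤ b := by exact_mod_cast hb1
  have hb2' : (2 : ℝ) ≤ b := by exact_mod_cast hb2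
  have hb : (0 : ℝ) < b := by linarith
  set D := b ^ (2 * m) with hDdef
  have hD : 0 < D := by positivity
  have hD' : (0 : ℝ) < D := by exact_mod_cast hD
  rcases (Good l b D ε ρ ∩ cube b k τ).eq_empty_or_nonempty with h | ⟨y, hy, hyc⟩
  · exact ⟨∅, by simp, by simp [h]⟩
  set B := b ^ L with hB
  have hB1 : (1 : ℝ) ≤ B := by
    have : 1 ≤ B := Nat.one_le_pow _ _ (by omega)
    exact_mod_cast this
  set N0 := (4 * (B + 3) + 1) * (2 * (B + 1) + 1) with hN0
  set W := Finset.Icc (k - M) (k + L) with hW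
  have hWc : W.card ≤ M + L + 1 := by rw [hW, Nat.card_Icc]; omega
  set r : ℕ → ℝ := fun k' => (b : ℝ) ^ k' / (b : ℝ) ^ k with hr
  have hr0 : ∀ k', 0 < r k' := fun k' => by simp only [hr]; positivity
  have hrB : ∀ k', k' ≤ k + L → r k' ≤ B := by
    intro k' h
    simp only [hr]
    rw [div_le_iff₀ (by positivity), hB]
    push_cast
    rw [← pow_add]
    exact pow_le_pow_right₀ hb1.le (by omega)
  have hrβ : ∀ k', k' ≤ k + L → k' ≠ k → 1 / 2 ≤ |1 - r k'| ∧ |1 - r k'| ≤ B := by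
    intro k' h h'
    have h1 := hrB k' h
    have h2 := hr0 k'
    rcases lt_or_gt_of_ne h' with h3 | h3
    · have : r k' ≤ 1 / 2 := by
        simp only [hr]
        rw [div_le_iff₀ (by positivity)]
        have : (b : ℝ) ^ (k' + 1) ≤ (b : ℝ) ^ k := pow_le_pow_right₀ hb1.le h3
        rw [pow_succ] at this
        have := pow_pos hb k'
        nlinarith
      rw [abs_of_nonneg (by linarith)]
      constructor <;> linarith
    · have : 2 ≤ r k' := by
        simp only [hr]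
        rw [le_div_iff₀ (by positivity)]
        have : (b : ℝ) ^ (k + 1) ≤ (b : ℝ) ^ k' := pow_le_pow_right₀ hb1.le h3
        rw [pow_succ] at this
        have := pow_pos hb k
        nlinarith
      rw [abs_of_nonpos (by linarith)]
      constructor <;> linarith
  have hn1 : ∀ γ, (near D (B + 3) 1 γ).card ≤ N0 := fun γ =>
    card_near hD γ (by norm_num) (by simpa using hB1)
  set C : ι → Finset ℕ := fun i =>
    (univ.biUnion fun i' => W.biUnion fun k' => near D (B + 3) 1 (-((b : ℝ) ^ k' * y i'))) ∪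
      (W.erase k).biUnion fun k' => near D (B + 3) (1 - r k') ((1 - r k') * τ i) with hC
  set R : ι → ι → ℕ → Finset ℕ := fun _ i' v =>
    W.biUnion fun k' => near D (B + 3) 1 (-(r k' * (τ i' + v / D))) with hR
  have hQ : Qc (Fintype.card ι) b M L = (Fintype.card ι + 1) * ((M + L + 1) * N0) := by
    rw [Qc, mul_assoc]
  have hWN : ∀ f : ℕ → ℝ, (W.biUnion fun k' => near D (B + 3) 1 (f k')).card ≤ (M + L + 1) * N0 :=
    fun f => (card_biUnion_le_card_mul _ _ _ fun _ _ => hn1 _).trans (Nat.mul_le_mul_right _ hWc)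
  obtain ⟨T, hT, hT'⟩ := ptr C R (Q := Qc (Fintype.card ι) b M L) (D := D) (E := b ^ m)
    (fun i => by
      rw [hQ, add_mul, one_mul]
      refine (card_union_le _ _).trans (add_le_add ?_ ?_)
      · exact (card_biUnion_le_card_mul _ _ _ fun i' _ => hWN _).trans (by rw [card_univ])
      · refine (card_biUnion_le_card_mul _ _ N0 fun k' hk' => ?_).trans
          (Nat.mul_le_mul_right _ ((card_erase_le).trans hWc))
        have h1 := mem_erase.1 hk'
        have h2 := hrβ k' (Finset.mem_Icc.1 h1.2).2 h1.1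
        exact card_near hD _ h2.1 h2.2)
    (fun i i' v => by
      rw [hQ]
      exact (hWN _).trans (Nat.le_mul_of_pos_left _ (by omega)))
    (by rw [hDdef, ← pow_add, two_mul]) (Nat.one_le_pow _ _ (by omega))
    (by rw [hQ]; exact Nat.mul_pos (by omega) (Nat.mul_pos (by omega) (by positivity)))
    _ univ card_univ (fun _ => 0)
  refine ⟨T, hT, fun x ⟨hx, hxc⟩ => ?_⟩
  set z : ι → ℝ := fun i => (b : ℝ) ^ k * x i - τ i with hz
  have hz0 : ∀ i, 0 ≤ z i ∧ z i < 1 := fun i => by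
    have := (mem_Ib (by omega)).1 (hxc i trivial)
    simp only [hz]
    constructor <;> linarith [this.1, this.2]
  set q : ι → ℕ := fun i => ⌊D * z i⌋₊ with hq
  have hq1 : ∀ i, (q i : ℝ) ≤ D * z i := fun i => Nat.floor_le (mul_nonneg hD'.le (hz0 i).1)
  have hq2 : ∀ i, D * z i < q i + 1 := fun i => Nat.lt_floor_add_one _
  have hq3 : ∀ i, q i < D := fun i => by
    have : (q i : ℝ) < D := by nlinarith [hq1 i, (hz0 i).2]
    exact_mod_cast this
  have hq4 : ∀ i, |(q i : ℝ) / D - z i| ≤ 1 / D := fun i => by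
    have e : (q i : ℝ) / D - z i = (q i - D * z i) / D := by field_simp
    rw [e, abs_div, abs_of_pos hD']
    gcongr
    rw [abs_le]; constructor <;> linarith [hq1 i, hq2 i]
  have hxz : ∀ i k', (b : ℝ) ^ k' * x i = r k' * (τ i + z i) := fun i k' => by
    simp only [hr, hz]; field_simp; ring
  have hxk : ∀ i, (b : ℝ) ^ k * x i = z i + ((τ i : ℤ) : ℝ) := fun i => by
    simp only [hz]; push_cast; ring
  have hmem : ∀ i β γ, cd (β * (q i / D) + γ) ≤ ((B + 3 : ℕ) : ℝ) / D → q i ∈ near D (B + 3) β γ :=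
    fun i β γ h => by
      unfold near
      exact mem_filter.2 ⟨mem_range.2 (hq3 i), h⟩
  have hBD : ((B + 3 : ℕ) : ℝ) / D = B * (1 / D) + 1 / D + 2 / D := by push_cast; ring
  have hD1 : (0 : ℝ) < 1 / D := by positivity
  refine ⟨q, hT' q (fun i hi => absurd (mem_univ i) hi) hq3 fun i _ => ?_, fun i _ => ?_⟩
  · obtain ⟨i', k', h1, h2, h3⟩ := step hl0 hl hlb hD hε hx hy
      (fun i => dist_Ib (by omega) (hxc i trivial) (hyc i trivial)) hρ hM hL i
    have hk'W : k' ∈ W := Finset.mem_Icc.2 ⟨by omega, h2⟩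
    rcases h3 with h3 | ⟨h4, h3⟩
    · left
      refine mem_union_left _ (mem_biUnion.2 ⟨i', mem_univ _, mem_biUnion.2 ⟨k', hk'W, hmem _ _ _ ?_⟩⟩)
      rw [hxk, add_sub_right_comm, cd_add_int] at h3
      refine (cd_le_add_abs _ (z i - (b : ℝ) ^ k' * y i')).trans ?_
      have e : 1 * ((q i : ℝ) / D) + -((b : ℝ) ^ k' * y i') - (z i - (b : ℝ) ^ k' * y i') =
        q i / D - z i := by ring
      rw [e, hBD]
      nlinarith [hq4 i]
    by_cases hii : i' = i
    · subst hii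
      left
      have hk : k' ≠ k := by tauto
      refine mem_union_right _ (mem_biUnion.2 ⟨k', mem_erase.2 ⟨hk, hk'W⟩, hmem _ _ _ ?_⟩)
      refine (cd_le_add_abs _ ((b : ℝ) ^ k * x i' - (b : ℝ) ^ k' * x i')).trans ?_
      have e : (1 - r k') * ((q i' : ℝ) / D) + (1 - r k') * τ i' -
          ((b : ℝ) ^ k * x i' - (b : ℝ) ^ k' * x i') = (1 - r k') * (q i' / D - z i') := by
        rw [hxk, hxz i' k']; push_cast; ring
      rw [e, hBD, abs_mul]
      have := mul_le_mul (hrβ k' h2 hk).2 (hq4 i') (abs_nonneg _) (by linarith)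
      linarith
    · right
      refine ⟨i', hii, mem_biUnion.2 ⟨k', hk'W, hmem _ _ _ ?_⟩⟩
      rw [hxk, add_sub_right_comm, cd_add_int] at h3
      refine (cd_le_add_abs _ (z i - (b : ℝ) ^ k' * x i')).trans ?_
      have e : 1 * ((q i : ℝ) / D) + -(r k' * (τ i' + q i' / D)) - (z i - (b : ℝ) ^ k' * x i') =
        (q i / D - z i) - r k' * (q i' / D - z i') := by rw [hxz i' k']; ring
      rw [e, hBD]
      refine le_trans (add_le_add le_rfl (abs_sub _ _)) ?_
      rw [abs_mul, abs_of_pos (hr0 k')]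
      have := mul_le_mul (hrB k' h2) (hq4 i') (abs_nonneg _) (by linarith)
      linarith [hq4 i]
  · rw [mem_Ib (by omega)]
    have e : (b : ℝ) ^ (k + 2 * m) * x i = D * τ i + D * z i := by
      simp only [hz, hDdef]; push_cast; ring
    rw [e]
    push_cast
    constructor <;> linarith [hq1 i, hq2 i]

theorem vol_good {l : ℝ} (hl0 : 0 < l) (hl : l < 1) {b m : ℕ} (hlb : 1 < l * b)
    {ε : ι → ℝ} (hε : ∀ i, |ε i| = 1) {ρ : ℝ} {M L : ℕ}
    (hM : Fintype.card ι * (b ^ (2 * m) : ℕ) / (l * b) ^ M / (l * b - 1) ≤ 1 / 8)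
    (hL : 2 * Fintype.card ι * l ^ (L + 1) / (1 - l) ≤ 1 / 8) (c : ℕ) :
    ∀ (k : ℕ) (τ : ι → ℕ), ρ ≤ l ^ (k + 2 * m * c) / 16 →
      volume (Good l b (b ^ (2 * m)) ε ρ ∩ cube b k τ) ≤
        ENNReal.ofReal ((((Qc (Fintype.card ι) b M L * (1 + 2 * Fintype.card ι) : ℕ) /
          (b : ℝ) ^ m) ^ c * (1 / (b : ℝ) ^ k)) ^ Fintype.card ι) := by
  have hb : (0 : ℝ) < b := by
    by_contra hc
    push Not at hc
    nlinarith
  induction c with
  | zero =>
    intro k τ _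
    refine (measure_mono Set.inter_subset_right).trans (le_of_eq ?_)
    rw [vol_cube, pow_zero, one_mul, ENNReal.ofReal_pow (by positivity)]
  | succ c ih =>
    intro k τ hρ
    have hρ' : ρ ≤ l ^ k / 16 :=
      hρ.trans (by gcongr ?_ / 16; exact pow_le_pow_of_le_one hl0.le hl.le (by omega))
    obtain ⟨T, hT, hT'⟩ := cube_step hl0 hl hlb hε hρ' hM hL τ
    have hsub : Good l b (b ^ (2 * m)) ε ρ ∩ cube b k τ ⊆ ⋃ q ∈ T, Good l b (b ^ (2 * m)) ε ρ ∩
        cube b (k + 2 * m) fun i => b ^ (2 * m) * τ i + q i := by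
      intro x hx
      obtain ⟨q, hq, h⟩ := hT' x hx
      exact Set.mem_biUnion hq ⟨hx.1, h⟩
    refine (measure_mono hsub).trans ((measure_biUnion_finset_le _ _).trans ?_)
    refine (Finset.sum_le_card_nsmul _ _ _ fun q _ => ih _ _ ?_).trans ?_
    · rwa [show k + 2 * m + 2 * m * c = k + 2 * m * (c + 1) by ring]
    · set A := Qc (Fintype.card ι) b M L * (1 + 2 * Fintype.card ι) with hA
      rw [nsmul_eq_mul, ← ENNReal.ofReal_natCast, ← ENNReal.ofReal_mul (by positivity)]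
      refine ENNReal.ofReal_le_ofReal ?_
      have hT2 : (T.card : ℝ) ≤ (A * (b : ℝ) ^ m) ^ Fintype.card ι := by exact_mod_cast hT
      refine (mul_le_mul_of_nonneg_right hT2 (by positivity)).trans (le_of_eq ?_)
      rw [← mul_pow]
      congr 1
      rw [pow_succ, pow_add, two_mul, pow_add]
      field_simp

end Pool.Agent.H135Z.Wei
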